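import Mathlib

/-!
# SB-E-03: `R[X]/(P)` is finite étale over `R` for `P` monic and separable
PROOF.  Finite: `Polynomial.Monic.finite_adjoinRoot` or similar (power basis).  Étale: Mathlib file `RingTheory/Etale/StandardEtale.lean`: the `StandardEtalePair` with `f = P`, `g = 1`
(`cond` from `IsCoprime P P.derivative`) has an étale `Ring` (instance) and `equivAwayAdjoinRoot : P.Ring ≃ₐ[R] Localization.Away (AdjoinRoot.mk P.f P.g)`; the localisation at `1` is `AdjoinRoot P`
(`IsLocalization.atUnit` or similar); `Algebra.Etale.of_equiv`.  (Or any other way: `Algebra.FormallyUnramified` + flat + finitely presented with `Algebra.Etale.of_formallyUnramified_of_flat`.)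
-/

set_option autoImplicit false

namespace Pool.Agent.SB.SE

theorem adjoinRoot_finite {R : Type} [CommRing R] (P : Polynomial R) (hP : P.Monic) :
    Module.Finite R (AdjoinRoot P) := by
  exact hP.finite_adjoinRoot

theorem adjoinRoot_etale {R : Type} [CommRing R] (P : Polynomial R) (hP : P.Monic)
    (hs : P.Separable) : Algebra.Etale R (AdjoinRoot P) := by
  obtain ⟨a, b, hab⟩ := hs
  let Q : StandardEtalePair R := ⟨P, hP, 1, b, a, 1, by
    rw [pow_one]
    linear_combination hab⟩
  have h0 : Polynomial.aeval (AdjoinRoot.root P) P = 0 := by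
    rw [AdjoinRoot.aeval_eq, AdjoinRoot.mk_self]
  have h1 : Q.HasMap (AdjoinRoot.root P) := ⟨h0, by simp [Q]⟩
  have h3 : Polynomial.eval₂ ((Algebra.ofId R Q.Ring : R →ₐ[R] Q.Ring) : R →+* Q.Ring) Q.X P = 0 :=
    Q.hasMap_X.1
  have h2 : (AdjoinRoot.liftAlgHom P (Algebra.ofId R Q.Ring) Q.X h3) (AdjoinRoot.root P) = Q.X :=
    AdjoinRoot.liftAlgHom_root _ _ _ _
  let e : Q.Ring ≃ₐ[R] AdjoinRoot P := AlgEquiv.ofAlgHom (Q.lift (AdjoinRoot.root P) h1)
    (AdjoinRoot.liftAlgHom P (Algebra.ofId R Q.Ring) Q.X h3)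
    (by
      ext
      rw [AlgHom.comp_apply, h2, StandardEtalePair.lift_X]
      rfl)
    (by
      ext
      rw [AlgHom.comp_apply, StandardEtalePair.lift_X, h2]
      rfl)
  exact Algebra.Etale.of_equiv e

end Pool.Agent.SB.SE
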