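import Pool.Agent.Helper6.SE.EDefs
import Pool.Agent.Helper6.SE.StdEt

/-!
# SB-E-04 (ET3, ET3b): roots of monic separable polynomials, constants, roots of units
PROOF.  `root_mem`: `S = AdjoinRoot P` (SB-E-03), `φ = AdjoinRoot.liftAlgHom`/`AdjoinRoot.lift` with root `θ`.
`kbar_subset_etSet`: `P = (minpoly k a).map (algebraMap k R)` (monic; separable, characteristic `0`: `Polynomial.Separable.map`), `a` is algebraic over `k` as an element of `algebraicClosure k Ω`.
`root_mem_etSet`: `P = X ^ N - C u`: monic, separable by `Polynomial.separable_X_pow_sub_C_unit` (`u` and `N` are units of `R`).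
-/

set_option autoImplicit false

open MvPolynomial IntermediateField NumberField IsDedekindDomain

namespace Pool.Agent.SB

variable (k : Type) [Field k] {Ω : Type} [Field Ω] [Algebra k Ω]

theorem root_mem {R : Subalgebra k Ω} (P : Polynomial R) (hP : P.Monic) (hs : P.Separable)
    (θ : Ω) (hθ : Polynomial.aeval θ P = 0) : θ ∈ etSet k R := by
  refine ⟨AdjoinRoot P, inferInstance, inferInstance, SE.adjoinRoot_finite P hP,
    SE.adjoinRoot_etale P hP hs, AdjoinRoot.liftAlgHom P (Algebra.ofId R Ω) θ ?_,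
    AdjoinRoot.root P, ?_⟩
  · exact hθ
  · exact AdjoinRoot.liftAlgHom_root P (Algebra.ofId R Ω) θ _

variable [CharZero k]

/-- (ET3) constants -/
theorem kbar_subset_etSet (R : Subalgebra k Ω) (a : kbar k Ω) : (a : Ω) ∈ etSet k R := by
  have ha : IsAlgebraic k (a : Ω) := mem_algebraicClosure_iff.1 a.2
  have hi : IsIntegral k (a : Ω) := ha.isIntegral
  refine root_mem k ((minpoly k (a : Ω)).map (algebraMap k R)) ((minpoly.monic hi).map _)
    ((minpoly.irreducible hi).separable.map) _ ?_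
  rw [Polynomial.aeval_map_algebraMap, minpoly.aeval]

/-- (ET3b) `N`-th roots of units -/
theorem root_mem_etSet (R : Subalgebra k Ω) (N : ℕ) (hN : 0 < N) (u : Ω) (hu : u ∈ R)
    (hu' : u⁻¹ ∈ R) (hu0 : u ≠ 0) (θ : Ω) (hθ : θ ^ N = u) : θ ∈ etSet k R := by
  let v : Rˣ := ⟨⟨u, hu⟩, ⟨u⁻¹, hu'⟩, Subtype.ext (mul_inv_cancel₀ hu0),
    Subtype.ext (inv_mul_cancel₀ hu0)⟩
  have hNu : IsUnit ((N : ℕ) : R) := by
    have h1 : IsUnit ((N : ℕ) : k) := isUnit_iff_ne_zero.2 (Nat.cast_ne_zero.2 hN.ne')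
    have h2 := h1.map (algebraMap k R)
    rwa [map_natCast] at h2
  refine root_mem k (Polynomial.X ^ N - Polynomial.C (v : R))
    (Polynomial.monic_X_pow_sub_C _ hN.ne') (Polynomial.separable_X_pow_sub_C_unit v hNu) θ ?_
  rw [map_sub, map_pow, Polynomial.aeval_X, Polynomial.aeval_C, hθ]
  exact sub_self u

end Pool.Agent.SB
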