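import Pool.Agent.Helper6.SE.EDefs

/-!
# SB-E-09: localisations of integrally closed subalgebras of a field
PROOF.  `B` is the localisation of `A` away from `t` (`IsLocalization.Away ⟨t, ht⟩ B` for the algebra structure given by the inclusion), so `isIntegrallyClosed_of_isLocalization`.
-/

set_option autoImplicit false

namespace Pool.Agent.SB.SE

variable {k : Type} [Field k] {Ω : Type} [Field Ω] [Algebra k Ω]

theorem integrallyClosed_of_loc {A B : Subalgebra k Ω} (h : A ≤ B) (t : Ω) (ht : t ∈ A)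
    (ht0 : t ≠ 0) (hti : t⁻¹ ∈ B) (hB : ∀ b ∈ B, ∃ m : ℕ, b * t ^ m ∈ A)
    (hA : IsIntegrallyClosed A) : IsIntegrallyClosed B := by
  letI : Algebra A B := (Subalgebra.inclusion h).toRingHom.toAlgebra
  have hmap : ∀ a : A, ((algebraMap A B a : B) : Ω) = (a : Ω) := fun a => rfl
  have htA : (⟨t, ht⟩ : A) ≠ 0 := fun h0 => ht0 (congrArg Subtype.val h0)
  have hle : Submonoid.powers (⟨t, ht⟩ : A) ≤ nonZeroDivisors A :=
    powers_le_nonZeroDivisors_of_noZeroDivisors htA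
  have hloc : IsLocalization (Submonoid.powers (⟨t, ht⟩ : A)) B := by
    refine ⟨?_, ?_, ?_⟩
    · rintro ⟨_, n, rfl⟩
      refine isUnit_iff_exists_inv.mpr ⟨(⟨t⁻¹, hti⟩ : B) ^ n, ?_⟩
      apply Subtype.ext
      show (((⟨t, ht⟩ : A) ^ n : A) : Ω) * (((⟨t⁻¹, hti⟩ : B) ^ n : B) : Ω) = 1
      rw [SubmonoidClass.coe_pow, SubmonoidClass.coe_pow, ← mul_pow]
      show (t * t⁻¹) ^ n = 1
      rw [mul_inv_cancel₀ ht0, one_pow]
    · intro z
      obtain ⟨m, hm⟩ := hB z z.2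
      refine ⟨⟨⟨(z : Ω) * t ^ m, hm⟩, ⟨(⟨t, ht⟩ : A) ^ m, m, rfl⟩⟩, ?_⟩
      apply Subtype.ext
      show (z : Ω) * (((⟨t, ht⟩ : A) ^ m : A) : Ω) = (z : Ω) * t ^ m
      rw [SubmonoidClass.coe_pow]
    · intro x y hxy
      refine ⟨1, ?_⟩
      have : x = y := by
        apply Subtype.ext
        have := congrArg (Subtype.val : B → Ω) hxy
        exact this
      rw [this]
  exact isIntegrallyClosed_of_isLocalization (R := A) (S := B)
    (Submonoid.powers (⟨t, ht⟩ : A)) hle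

end Pool.Agent.SB.SE
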