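import Pool.Agent.Helper6.SE.Shrink
import Pool.Agent.Helper6.SE.LocNorm

/-!
# SB-E-10 (ET6a): the coordinate ring of `g g' ≠ 0` is the localisation of the one of `g ≠ 0` at `t = g'^e / g^e'`
PROOF.  `t ∈ coordRing e g`: `pow_mem` with `m = e'`, `f = g'^e`.  `t⁻¹ = g^e' / g'^e = g^(e + e') / (g g')^e ∈ coordRing (e + e') (g g')`: `pow_mem` with `m = e`.
For a generator `f / (g g')`, `f` of degree `e + e'`: `f / (g g') * t = f g'^(e-1) / g^(e'+1)` and `f g'^(e-1)` has degree `e + e' + e'(e-1) = e (e' + 1)`, so it is in `coordRing e g` by `pow_mem` (`e > 0`).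
The set of `b` with `b t^m ∈ coordRing e g` for some `m` is a subalgebra.  ET6a: `integrallyClosed_of_loc`.
-/

set_option autoImplicit false

open MvPolynomial IntermediateField NumberField IsDedekindDomain

namespace Pool.Agent.SB

variable (k : Type) [Field k] {Ω : Type} [Field Ω] [Algebra k Ω]
  {n : ℕ} {ξ : Fin (n + 1) → Ω}

theorem SE.coordRing_mul_loc {e e' : ℕ} {g g' : MvPolynomial (Fin (n + 1)) k} (h : Adm k ξ e g)
    (h' : Adm k ξ e' g') :
    aeval ξ g' ^ e / aeval ξ g ^ e' ∈ coordRing k ξ e g ∧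
    (aeval ξ g' ^ e / aeval ξ g ^ e')⁻¹ ∈ coordRing k ξ (e + e') (g * g') ∧
    ∀ b ∈ coordRing k ξ (e + e') (g * g'), ∃ m : ℕ,
      b * (aeval ξ g' ^ e / aeval ξ g ^ e') ^ m ∈ coordRing k ξ e g := by
  have hG : aeval ξ g ≠ 0 := h.ne
  have hG' : aeval ξ g' ≠ 0 := h'.ne
  have ht : aeval ξ g' ^ e / aeval ξ g ^ e' ∈ coordRing k ξ e g := by
    have h1 : (g' ^ e).IsHomogeneous (e * e') := by
      rw [mul_comm]
      exact h'.hom.pow e
    have h2 := SE.pow_mem k ξ e e' g (g' ^ e) h1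
    rwa [map_pow] at h2
  refine ⟨ht, ?_, ?_⟩
  · have h1 : (g ^ (e + e')).IsHomogeneous ((e + e') * e) := by
      rw [mul_comm]
      exact h.hom.pow (e + e')
    have h2 := SE.pow_mem k ξ (e + e') e (g * g') (g ^ (e + e')) h1
    have h3 : aeval ξ (g ^ (e + e')) / aeval ξ (g * g') ^ e =
        (aeval ξ g' ^ e / aeval ξ g ^ e')⁻¹ := by
      rw [map_pow, map_mul, mul_pow, inv_div, pow_add,
        mul_div_mul_left _ _ (pow_ne_zero e hG)]
    rwa [h3] at h2
  · intro b hb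
    change b ∈ Algebra.adjoin k _ at hb
    refine Algebra.adjoin_induction (p := fun b _ => ∃ m : ℕ,
      b * (aeval ξ g' ^ e / aeval ξ g ^ e') ^ m ∈ coordRing k ξ e g) ?_ ?_ ?_ ?_ hb
    · rintro z ⟨f, hf, rfl⟩
      refine ⟨1, ?_⟩
      obtain ⟨d, hd⟩ : ∃ d, e = d + 1 := ⟨e - 1, by have := h.pos; omega⟩
      have h1 : (f * g' ^ d).IsHomogeneous (e * (e' + 1)) := by
        have h2 := hf.mul (h'.hom.pow d)
        have h3 : e + e' + e' * d = e * (e' + 1) := by
          rw [hd]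
          ring
        rwa [h3] at h2
      have h2 := SE.pow_mem k ξ e (e' + 1) g (f * g' ^ d) h1
      have h3 : aeval ξ (f * g' ^ d) / aeval ξ g ^ (e' + 1) =
          aeval ξ f / aeval ξ (g * g') * (aeval ξ g' ^ e / aeval ξ g ^ e') ^ 1 := by
        rw [map_mul, map_mul, map_pow, pow_one, hd]
        field_simp
        ring
      rwa [h3] at h2
    · intro r
      refine ⟨0, ?_⟩
      rw [pow_zero, mul_one]
      exact (coordRing k ξ e g).algebraMap_mem r
    · rintro x y _ _ ⟨m, hm⟩ ⟨l, hl⟩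
      refine ⟨m + l, ?_⟩
      have h1 : (x + y) * (aeval ξ g' ^ e / aeval ξ g ^ e') ^ (m + l) =
          x * (aeval ξ g' ^ e / aeval ξ g ^ e') ^ m * (aeval ξ g' ^ e / aeval ξ g ^ e') ^ l +
          y * (aeval ξ g' ^ e / aeval ξ g ^ e') ^ l * (aeval ξ g' ^ e / aeval ξ g ^ e') ^ m := by
        rw [pow_add]
        ring
      rw [h1]
      exact add_mem (mul_mem hm (_root_.pow_mem ht l)) (mul_mem hl (_root_.pow_mem ht m))
    · rintro x y _ _ ⟨m, hm⟩ ⟨l, hl⟩
      refine ⟨m + l, ?_⟩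
      have h1 : (x * y) * (aeval ξ g' ^ e / aeval ξ g ^ e') ^ (m + l) =
          (x * (aeval ξ g' ^ e / aeval ξ g ^ e') ^ m) *
          (y * (aeval ξ g' ^ e / aeval ξ g ^ e') ^ l) := by
        rw [pow_add]
        ring
      rw [h1]
      exact mul_mem hm hl

/-- (ET6a) shrinking keeps normality -/
theorem coordRing_mul {e e' : ℕ} {g g' : MvPolynomial (Fin (n + 1)) k} (h : Adm k ξ e g)
    (h' : Adm k ξ e' g') (hn : IsIntegrallyClosed (coordRing k ξ e g)) :
    IsIntegrallyClosed (coordRing k ξ (e + e') (g * g')) := by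
  obtain ⟨h1, h2, h3⟩ := SE.coordRing_mul_loc k h h'
  refine SE.integrallyClosed_of_loc (SE.coordRing_le_mul k h h') _ h1 ?_ h2 h3 hn
  exact div_ne_zero (pow_ne_zero _ h'.ne) (pow_ne_zero _ h.ne)

end Pool.Agent.SB
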