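import Pool.Agent.Helper6.SE.EDefs

/-!
# SB-E-06: elements of the coordinate ring are quotients `f / g^m`
PROOF.  `Algebra.adjoin_induction`: generators `m = 1`; constants `m = 0` (`f = C c`); sums and products: `f/g^m + f'/g^m' = (f g^m' + f' g^m) / g^(m+m')`, `(f/g^m)(f'/g^m') = f f' / g^(m+m')` (`IsHomogeneous.mul`, `.pow`, `.add`).
`coordRing_le_funField`: some `ξ_j ≠ 0` (else `g(ξ) = 0`, `g` being homogeneous of positive degree), `f(ξ)/g(ξ) = f(ξ/ξ_j)/g(ξ/ξ_j)` (`f` and `g` homogeneous of the same degree `e`;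
`MvPolynomial.IsHomogeneous` evaluation: `IsHomogeneous.eval₂`/`aeval` at `c • x`), and `aeval (ξ/ξ_j) f` is in the field `K` (`funField`), because all `ξ_i/ξ_j` are.
-/

set_option autoImplicit false

open MvPolynomial IntermediateField NumberField IsDedekindDomain

namespace Pool.Agent.SB.SE

variable (k : Type) [Field k] {Ω : Type} [Field Ω] [Algebra k Ω] {n : ℕ} {ξ : Fin (n + 1) → Ω}

private theorem rep_scale {f : MvPolynomial (Fin (n + 1)) k} {e : ℕ} (hf : f.IsHomogeneous e)
    (c : Ω) (x : Fin (n + 1) → Ω) : aeval (fun i => c * x i) f = c ^ e * aeval x f := by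
  rw [aeval_def, aeval_def, eval₂_eq', eval₂_eq', Finset.mul_sum]
  refine Finset.sum_congr rfl fun d hd => ?_
  have h : ∑ i, d i = e := by
    have := hf (mem_support_iff.mp hd)
    rw [Finsupp.weight_apply, Finsupp.sum_fintype _ _ (by simp)] at this
    simpa using this
  have h2 : ∏ i, (c * x i) ^ d i = c ^ e * ∏ i, x i ^ d i := by
    rw [← h, ← Finset.prod_pow_eq_pow_sum, ← Finset.prod_mul_distrib]
    exact Finset.prod_congr rfl fun i _ => mul_pow _ _ _
  rw [h2]; ring

theorem exists_rep {e : ℕ} {g : MvPolynomial (Fin (n + 1)) k} (h : Adm k ξ e g) {z : Ω}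
    (hz : z ∈ coordRing k ξ e g) : ∃ (m : ℕ) (f : MvPolynomial (Fin (n + 1)) k),
      f.IsHomogeneous (e * m) ∧ z = aeval ξ f / aeval ξ g ^ m := by
  have hg := h.ne
  induction hz using Algebra.adjoin_induction with
  | mem x hx =>
    obtain ⟨f, hf, rfl⟩ := hx
    exact ⟨1, f, by rw [mul_one]; exact hf, by rw [pow_one]⟩
  | algebraMap r =>
    refine ⟨0, C r, ?_, ?_⟩
    · rw [mul_zero]; exact isHomogeneous_C _ r
    · rw [pow_zero, div_one, aeval_C]
  | add x y _ _ hx hy =>
    obtain ⟨m, f, hf, rfl⟩ := hx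
    obtain ⟨m', f', hf', rfl⟩ := hy
    refine ⟨m + m', f * g ^ m' + f' * g ^ m, ?_, ?_⟩
    · have h1 := hf.mul (h.hom.pow m')
      have h2 := hf'.mul (h.hom.pow m)
      rw [← mul_add] at h1 h2
      rw [add_comm m' m] at h2
      exact h1.add h2
    · rw [map_add, map_mul, map_mul, map_pow, map_pow, pow_add]
      field_simp
  | mul x y _ _ hx hy =>
    obtain ⟨m, f, hf, rfl⟩ := hx
    obtain ⟨m', f', hf', rfl⟩ := hy
    refine ⟨m + m', f * f', ?_, ?_⟩
    · rw [mul_add]; exact hf.mul hf'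
    · rw [map_mul, pow_add]
      field_simp

theorem coordRing_le_funField {e : ℕ} {g : MvPolynomial (Fin (n + 1)) k} (h : Adm k ξ e g) {z : Ω}
    (hz : z ∈ coordRing k ξ e g) : z ∈ funField k ξ := by
  have hj : ∃ j, ξ j ≠ 0 := by
    by_contra hne
    push Not at hne
    have h0 : ξ = fun i => (0 : Ω) * ξ i := by
      funext i; rw [hne i, zero_mul]
    apply h.ne
    rw [h0, rep_scale k h.hom, zero_pow h.pos.ne', zero_mul]
  obtain ⟨j, hj⟩ := hj
  have hmem : ∀ f : MvPolynomial (Fin (n + 1)) k, aeval (fun i => ξ i / ξ j) f ∈ funField k ξ := by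
    intro f
    have h1 : ∀ i, ξ i / ξ j ∈ funField k ξ := fun i =>
      IntermediateField.subset_adjoin k _ ⟨i, j, rfl⟩
    have h2 : aeval (fun i => ξ i / ξ j) f =
        algebraMap (funField k ξ) Ω (aeval (fun i => (⟨ξ i / ξ j, h1 i⟩ : funField k ξ)) f) := by
      rw [← aeval_algebraMap_apply]
      rfl
    rw [h2]
    exact SetLike.coe_mem _
  have hsc : ∀ f : MvPolynomial (Fin (n + 1)) k, f.IsHomogeneous e →
      aeval ξ f = ξ j ^ e * aeval (fun i => ξ i / ξ j) f := by
    intro f hf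
    rw [← rep_scale k hf]
    congr 2
    funext i
    field_simp
  have hle : coordRing k ξ e g ≤ (funField k ξ).toSubalgebra := by
    apply Algebra.adjoin_le
    rintro z ⟨f, hf, rfl⟩
    show _ ∈ funField k ξ
    rw [hsc f hf, hsc g h.hom, mul_div_mul_left _ _ (pow_ne_zero _ hj)]
    exact div_mem (hmem f) (hmem g)
  exact hle hz

end Pool.Agent.SB.SE
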