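import Pool.Agent.Helper6.SE.PowMem
import Pool.Agent.Helper6.SE.Rep

/-!
# SB-E-07: shrinking open sets; every element of the function field is in some coordinate ring
PROOF.  `coordRing_le_mul`: `f / g = f g' / (g g')`.  `coordRing_le_mul'`: commutativity.  `inv_mem`: `z = f / g^m` (`exists_rep`), `z⁻¹ = g^m / f = g^(m+1) / (f g)`; `f g` is homogeneous of degree `e m + e`, the same degree as `g^(m+1)`; so take `e' = e m + e`, `g' = f g`; and
`coordRing e g ≤ coordRing (e' ) (f g)` by `coordRing_le_mul'` when `e m > 0` or directly: `h / g = h f / (f g)`.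
`exists_mem`: the union of all `coordRing e g` over admissible `(e, g)` is a field containing `k` (`IntermediateField.adjoin_induction`): sums and products by `coordRing_le_mul`, inverses by `inv_mem`; generators: `ξ_i/ξ_j` with `ξ_j ≠ 0`: `g = X j`, `e = 1`; if `ξ_j = 0` the generator is `0` and
any admissible pair will do, for instance `X i` with `ξ_i ≠ 0`.  `exists_finset`: induction on the finite set with `coordRing_le_mul`.
-/

set_option autoImplicit false

open MvPolynomial IntermediateField NumberField IsDedekindDomain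

namespace Pool.Agent.SB.SE

variable (k : Type) [Field k] {Ω : Type} [Field Ω] [Algebra k Ω] {n : ℕ} {ξ : Fin (n + 1) → Ω}

theorem coordRing_le_mul {e e' : ℕ} {g g' : MvPolynomial (Fin (n + 1)) k} (h : Adm k ξ e g)
    (h' : Adm k ξ e' g') : coordRing k ξ e g ≤ coordRing k ξ (e + e') (g * g') := by
  unfold coordRing
  apply Algebra.adjoin_le
  rintro z ⟨f, hf, rfl⟩
  apply Algebra.subset_adjoin
  refine ⟨f * g', hf.mul h'.hom, ?_⟩
  rw [map_mul, map_mul, mul_div_mul_right _ _ h'.ne]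

theorem coordRing_le_mul' {e e' : ℕ} {g g' : MvPolynomial (Fin (n + 1)) k} (h : Adm k ξ e g)
    (h' : Adm k ξ e' g') : coordRing k ξ e' g' ≤ coordRing k ξ (e + e') (g * g') := by
  rw [add_comm, mul_comm]
  exact coordRing_le_mul k h' h

theorem inv_mem {e : ℕ} {g : MvPolynomial (Fin (n + 1)) k} (h : Adm k ξ e g) {z : Ω}
    (hz : z ∈ coordRing k ξ e g) (hz0 : z ≠ 0) :
    ∃ e' g', Adm k ξ e' g' ∧ coordRing k ξ e g ≤ coordRing k ξ e' g' ∧
      z⁻¹ ∈ coordRing k ξ e' g' := by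
  obtain ⟨m, f, hf, hzf⟩ := exists_rep k h hz
  have hf0 : aeval ξ f ≠ 0 := by
    intro h0
    rw [h0, zero_div] at hzf
    exact hz0 hzf
  refine ⟨e * m + e, f * g, ⟨Nat.add_pos_right _ h.pos, hf.mul h.hom, ?_⟩, ?_, ?_⟩
  · rw [map_mul]
    exact mul_ne_zero hf0 h.ne
  · unfold coordRing
    apply Algebra.adjoin_le
    rintro y ⟨p, hp, rfl⟩
    apply Algebra.subset_adjoin
    refine ⟨f * p, hf.mul hp, ?_⟩
    rw [map_mul, map_mul, mul_div_mul_left _ _ hf0]
  · unfold coordRing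
    apply Algebra.subset_adjoin
    refine ⟨g ^ (m + 1), ?_, ?_⟩
    · have h1 := h.hom.pow (m + 1)
      rwa [mul_add, mul_one] at h1
    · rw [hzf, inv_div, map_mul, map_pow, pow_succ, mul_div_mul_right _ _ h.ne]

private theorem Shrink_adm_X (j : Fin (n + 1)) (hj : ξ j ≠ 0) :
    Adm k ξ 1 (X j : MvPolynomial (Fin (n + 1)) k) :=
  ⟨one_pos, isHomogeneous_X _ _, by rw [aeval_X]; exact hj⟩

private theorem Shrink_exists_adm (hξ : ξ ≠ 0) :
    ∃ (e : ℕ) (g : MvPolynomial (Fin (n + 1)) k), Adm k ξ e g := by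
  obtain ⟨j, hj⟩ := Function.ne_iff.1 hξ
  exact ⟨1, X j, Shrink_adm_X k j hj⟩

private theorem Shrink_exists_mem (hξ : ξ ≠ 0) (z : Ω) (hz : z ∈ funField k ξ) :
    ∃ e g, Adm k ξ e g ∧ z ∈ coordRing k ξ e g := by
  unfold funField at hz
  obtain ⟨e₀, g₀, h₀⟩ := Shrink_exists_adm k hξ
  induction hz using IntermediateField.adjoin_induction with
  | mem z hz =>
    obtain ⟨i, j, rfl⟩ := hz
    by_cases hj : ξ j = 0
    · rw [hj, div_zero]
      exact ⟨e₀, g₀, h₀, zero_mem _⟩
    · refine ⟨1, X j, Shrink_adm_X k j hj, ?_⟩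
      unfold coordRing
      apply Algebra.subset_adjoin
      exact ⟨X i, isHomogeneous_X _ _, by rw [aeval_X, aeval_X]⟩
  | algebraMap x => exact ⟨e₀, g₀, h₀, algebraMap_mem _ _⟩
  | add x y _ _ hx hy =>
    obtain ⟨e, g, h, hx⟩ := hx
    obtain ⟨e', g', h', hy⟩ := hy
    exact ⟨e + e', g * g', h.mul k h', add_mem (coordRing_le_mul k h h' hx)
      (coordRing_le_mul' k h h' hy)⟩
  | inv x _ hx =>
    obtain ⟨e, g, h, hx⟩ := hx
    by_cases hx0 : x = 0
    · rw [hx0, inv_zero]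
      exact ⟨e, g, h, zero_mem _⟩
    · obtain ⟨e', g', h', -, hx'⟩ := inv_mem k h hx hx0
      exact ⟨e', g', h', hx'⟩
  | mul x y _ _ hx hy =>
    obtain ⟨e, g, h, hx⟩ := hx
    obtain ⟨e', g', h', hy⟩ := hy
    exact ⟨e + e', g * g', h.mul k h', mul_mem (coordRing_le_mul k h h' hx)
      (coordRing_le_mul' k h h' hy)⟩

theorem exists_finset (hξ : ξ ≠ 0) (F : Finset Ω) (hF : ∀ z ∈ F, z ∈ funField k ξ) :
    ∃ e g, Adm k ξ e g ∧ ∀ z ∈ F, z ∈ coordRing k ξ e g := by
  classical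
  induction F using Finset.induction_on with
  | empty =>
    obtain ⟨e₀, g₀, h₀⟩ := Shrink_exists_adm k hξ
    exact ⟨e₀, g₀, h₀, fun z hz => absurd hz (Finset.notMem_empty z)⟩
  | insert a s _ ih =>
    obtain ⟨e, g, h, hs⟩ := ih fun z hz => hF z (Finset.mem_insert_of_mem hz)
    obtain ⟨e', g', h', ha⟩ := Shrink_exists_mem k hξ a (hF a (Finset.mem_insert_self _ _))
    refine ⟨e + e', g * g', h.mul k h', fun z hz => ?_⟩
    rcases Finset.mem_insert.1 hz with rfl | hz
    · exact coordRing_le_mul' k h h' ha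
    · exact coordRing_le_mul k h h' (hs z hz)

end Pool.Agent.SB.SE
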