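import Pool.Agent.Helper6.SE.Mono
import Pool.Agent.Helper6.SE.Shrink

/-!
# SB-E-08 (ET5, ET7): monotonicity and normality of `K_U`
PROOF.  ET5: `IntermediateField.adjoin.mono`, `etSet_mono`, `coordRing_le_mul`.
ET7: `Ω/K` is algebraic and `Ω` algebraically closed, so `Ω/K` is normal (`IsAlgClosure.normal`); by `IntermediateField.normal_iff_forall_map_le'` (or `normal_iff_forall_map_le`) it suffices that `σ(etCover) ≤ etCover` for `σ : Ω ≃ₐ[K] Ω` (`IntermediateField.adjoin_map`); and `σ` maps
`etSet (coordRing e g)` to itself: compose `φ : S →ₐ[R] Ω` with `σ`, which is `R`-linear because `R = coordRing e g ⊆ K` (`coordRing_le_funField`).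
-/

set_option autoImplicit false

open MvPolynomial IntermediateField NumberField IsDedekindDomain

namespace Pool.Agent.SB

variable (k : Type) [Field k] {Ω : Type} [Field Ω] [Algebra k Ω]
  {n : ℕ} {ξ : Fin (n + 1) → Ω}

/-- (ET5) shrinking the open set enlarges `K_U` -/
theorem etCover_mul {e e' : ℕ} {g g' : MvPolynomial (Fin (n + 1)) k} (h : Adm k ξ e g)
    (h' : Adm k ξ e' g') : etCover k ξ e g ≤ etCover k ξ (e + e') (g * g') := by
  unfold etCover
  exact IntermediateField.adjoin.mono _ _ _ (etSet_mono k (SE.coordRing_le_mul k h h'))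

/-- (ET7) `K_U/K` is normal -/
theorem etCover_normal [CharZero k] [IsAlgClosed Ω] [Algebra.IsAlgebraic (funField k ξ) Ω] {e : ℕ}
    {g : MvPolynomial (Fin (n + 1)) k} (h : Adm k ξ e g) :
    Normal (funField k ξ) (etCover k ξ e g) := by
  have hN : Normal (funField k ξ) Ω := by
    have : IsAlgClosure (funField k ξ) Ω := ⟨inferInstance, inferInstance⟩
    exact IsAlgClosure.normal _ _
  rw [IntermediateField.normal_iff_forall_map_le']
  intro σ
  unfold etCover
  rw [IntermediateField.adjoin_map]
  refine IntermediateField.adjoin.mono _ _ _ ?_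
  rintro _ ⟨θ, ⟨S, hS1, hS2, hfin, het, φ, s, rfl⟩, rfl⟩
  let ψ : S →ₐ[coordRing k ξ e g] Ω :=
    { (σ : Ω →+* Ω).comp (φ : S →+* Ω) with
      commutes' := fun r => by
        change σ (φ (algebraMap (coordRing k ξ e g) S r)) = _
        rw [AlgHom.commutes]
        exact σ.commutes ⟨(r : Ω), SE.coordRing_le_funField k h r.2⟩ }
  exact ⟨S, hS1, hS2, hfin, het, ψ, s, rfl⟩

end Pool.Agent.SB
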