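import Pool.Agent.Helper6.SE.EDefs
import Pool.Agent.Helper6.SE.StdEt

/-!
# SB-E-14: `R[θ]` is finite étale over `R` if the minimal polynomial of `θ` over a field above `R` has coefficients in `R` and is separable over `R`
PROOF.  `AdjoinRoot P → Ω`, root to `θ`, is injective: every element is the class of `q` with `deg q < deg P` (`P` monic: `q %ₘ P`), `q(θ) = 0` implies `q = 0` by `hmin`.  Its range is `Algebra.adjoin R {θ}`, i.e. the carrier of `S`.  So `AdjoinRoot P ≃ₐ[R] S` for the algebra structure of `S` given by the inclusion, and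
SB-E-03 applies (`RingHom.Finite`, `RingHom.Etale` unfold to the module / algebra statements for `toAlgebra`).
-/

set_option autoImplicit false

namespace Pool.Agent.SB.SE

variable (k : Type) [Field k] {Ω : Type} [Field Ω] [Algebra k Ω]

theorem adjoin_etale {R S : Subalgebra k Ω} (h : R ≤ S) (θ : Ω)
    (hS : (S : Set Ω) = (Algebra.adjoin R {θ} : Subalgebra R Ω)) (P : Polynomial R)
    (hP : P.Monic) (hs : P.Separable) (h0 : Polynomial.aeval θ P = 0)
    (hmin : ∀ q : Polynomial R, q.degree < P.degree → Polynomial.aeval θ q = 0 → q = 0) :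
    (Subalgebra.inclusion h).toRingHom.Finite ∧ (Subalgebra.inclusion h).toRingHom.Etale := by
  classical
  have hroot : Polynomial.eval₂ (algebraMap R Ω) θ P = 0 := by
    rw [← Polynomial.aeval_def]
    exact h0
  let φ : AdjoinRoot P →+* Ω := AdjoinRoot.lift (algebraMap R Ω) θ hroot
  have hφmk : ∀ q : Polynomial R, φ (AdjoinRoot.mk P q) = Polynomial.aeval θ q := by
    intro q
    show AdjoinRoot.lift (algebraMap R Ω) θ hroot (AdjoinRoot.mk P q) = _
    rw [AdjoinRoot.lift_mk, Polynomial.aeval_def]
  have hφinj : Function.Injective φ := by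
    rw [injective_iff_map_eq_zero]
    intro y hy
    obtain ⟨q, rfl⟩ := AdjoinRoot.mk_surjective y
    rw [hφmk] at hy
    have h1 : Polynomial.aeval θ (q %ₘ P) = 0 := by
      have h2 := congrArg (Polynomial.aeval θ) (Polynomial.modByMonic_add_div q P)
      rw [map_add, map_mul, h0, zero_mul, add_zero, hy] at h2
      exact h2
    have h3 := hmin _ (Polynomial.degree_modByMonic_lt q hP) h1
    rw [AdjoinRoot.mk_eq_zero]
    exact (Polynomial.modByMonic_eq_zero_iff_dvd hP).1 h3
  have hmem : ∀ y, φ y ∈ S := by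
    intro y
    obtain ⟨q, rfl⟩ := AdjoinRoot.mk_surjective y
    rw [hφmk]
    show _ ∈ (S : Set Ω)
    rw [hS]
    exact Polynomial.aeval_mem_adjoin_singleton R θ
  let ψ : AdjoinRoot P →+* S := φ.codRestrict S hmem
  have hψ : ∀ y, ((ψ y : S) : Ω) = φ y := fun _ => rfl
  have hψb : Function.Bijective ψ := by
    constructor
    · intro a b hab
      apply hφinj
      rw [← hψ, ← hψ, hab]
    · rintro ⟨z, hz⟩
      have h1 : z ∈ (Algebra.adjoin R {θ} : Subalgebra R Ω) := by
        show z ∈ ((Algebra.adjoin R {θ} : Subalgebra R Ω) : Set Ω)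
        rw [← hS]
        exact hz
      rw [Algebra.adjoin_singleton_eq_range_aeval] at h1
      obtain ⟨q, hq⟩ := h1
      refine ⟨AdjoinRoot.mk P q, Subtype.ext ?_⟩
      rw [hψ, hφmk]
      exact hq
  let e : AdjoinRoot P ≃+* S := RingEquiv.ofBijective ψ hψb
  have he : e.toRingHom.comp (algebraMap R (AdjoinRoot P)) =
      (Subalgebra.inclusion h).toRingHom := by
    ext r
    show φ (algebraMap R (AdjoinRoot P) r) = (r : Ω)
    have h1 : algebraMap R (AdjoinRoot P) r = AdjoinRoot.mk P (Polynomial.C r) := rfl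
    rw [h1, hφmk, Polynomial.aeval_C]
    rfl
  rw [← he]
  have hfin := adjoinRoot_finite P hP
  have het := adjoinRoot_etale P hP hs
  constructor
  · refine RingHom.finite_respectsIso.1 (algebraMap R (AdjoinRoot P)) e ?_
    rw [RingHom.finite_algebraMap]
    exact hfin
  · refine RingHom.Etale.respectsIso.1 (algebraMap R (AdjoinRoot P)) e ?_
    exact RingHom.etale_algebraMap.2 het

end Pool.Agent.SB.SE
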