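import Pool.Agent.Helper6.SE.Shrink
import Pool.Agent.Helper6.SE.AdjEt

/-!
# SB-E-15: every finite set of algebraic elements lies in a finite étale algebra over a suitable open set
PROOF.  `K = funField`.  `M = K(F)` is finite over `K`, `M = K(θ)` (primitive element, characteristic `0`), `P = minpoly K θ`, monic and separable: `u P + v P' = 1` in `K[T]`; every `z ∈ F` is `q_z(θ)`, `q_z ∈ K[T]` (`IntermediateField.adjoin` of an algebraic element = `Algebra.adjoin`).
`exists_finset` for the finite set of all coefficients of `P, u, v, q_z`: an admissible `(e, g)` with all of them in `R = coordRing e g`.  So `P, u, v, q_z` lift to `R[T]` (`Polynomial.lifts`, injective map `R → K`): `P_R` is monic and separable.  `S = R[θ]` (as a `k`-subalgebra: `(Algebra.adjoin R {θ}).restrictScalars k`).  `adjoin_etale`; `hmin`: a polynomial of smaller degree over `R`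
vanishing at `θ` vanishes in `K[T]` (`minpoly.degree_le_of_ne_zero`), so in `R[T]`.
-/

set_option autoImplicit false

open MvPolynomial IntermediateField NumberField IsDedekindDomain

namespace Pool.Agent.SB.SE

variable (k : Type) [Field k] [CharZero k] {Ω : Type} [Field Ω] [Algebra k Ω]
  {n : ℕ} {ξ : Fin (n + 1) → Ω}

omit [CharZero k] in
private lemma lift_poly {A : Type} [CommRing A] [Algebra A Ω] (R : Subalgebra k Ω)
    (p : Polynomial A) (h : ∀ n, algebraMap A Ω (p.coeff n) ∈ R) :
    ∃ p' : Polynomial R, p'.map (algebraMap R Ω) = p.map (algebraMap A Ω) := by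
  have h1 : p.map (algebraMap A Ω) ∈ Polynomial.lifts (algebraMap R Ω) := by
    rw [Polynomial.lifts_iff_coeff_lifts]
    intro n
    rw [Polynomial.coeff_map]
    exact ⟨⟨_, h n⟩, rfl⟩
  obtain ⟨p', hp'⟩ := (Polynomial.mem_lifts _).1 h1
  exact ⟨p', hp'⟩

theorem exists_etale (hξ : ξ ≠ 0) (F : Finset Ω) (hF : ∀ z ∈ F, IsAlgebraic (funField k ξ) z) :
    ∃ e g, Adm k ξ e g ∧ ∃ (S : Subalgebra k Ω) (h : coordRing k ξ e g ≤ S),
      (Subalgebra.inclusion h).toRingHom.Finite ∧ (Subalgebra.inclusion h).toRingHom.Etale ∧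
      ∀ z ∈ F, z ∈ S := by
  classical
  let K : IntermediateField k Ω := funField k ξ
  have hcz : CharZero K := charZero_of_injective_algebraMap (algebraMap k K).injective
  let M : IntermediateField K Ω := IntermediateField.adjoin K (F : Set Ω)
  have hfin : FiniteDimensional K M :=
    IntermediateField.finiteDimensional_adjoin fun z hz => (hF z hz).isIntegral
  obtain ⟨α, hα⟩ := Field.exists_primitive_element K M
  have hαi : IsIntegral K α := Algebra.IsIntegral.isIntegral α
  have hθi : IsIntegral K (α : Ω) := hαi.map (IsScalarTower.toAlgHom K M Ω)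
  have hq : ∀ z : Ω, ∃ q : Polynomial K, z ∈ F → Polynomial.aeval (α : Ω) q = z := by
    intro z
    by_cases hz : z ∈ F
    · have hzM : z ∈ M := IntermediateField.subset_adjoin K _ hz
      have h1 : (⟨z, hzM⟩ : M) ∈ (IntermediateField.adjoin K {α} : IntermediateField K M) := by
        rw [hα]; exact IntermediateField.mem_top
      have h2 : (⟨z, hzM⟩ : M) ∈ Algebra.adjoin K {α} := by
        rw [← IntermediateField.adjoin_simple_toSubalgebra_of_isAlgebraic hαi.isAlgebraic]
        exact h1
      rw [Algebra.adjoin_singleton_eq_range_aeval] at h2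
      obtain ⟨q, hq⟩ := h2
      refine ⟨q, fun _ => ?_⟩
      have h3 := congrArg (fun y : M => (y : Ω)) hq
      simp only at h3
      have h4 : ((Polynomial.aeval α q : M) : Ω) = Polynomial.aeval (α : Ω) q := by
        exact (Polynomial.aeval_algHom_apply (IsScalarTower.toAlgHom K M Ω) α q).symm
      rw [← h4]
      exact h3
    · exact ⟨0, fun h => absurd h hz⟩
  choose q hq using hq
  set θ : Ω := (α : Ω) with hθ
  set P : Polynomial K := minpoly K θ with hP
  have hsep : P.Separable := (minpoly.irreducible hθi).separable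
  obtain ⟨u, v, huv⟩ := hsep
  let cf : Polynomial K → Finset Ω := fun p => p.support.image fun n => algebraMap K Ω (p.coeff n)
  have hcf : ∀ (p : Polynomial K) (R : Subalgebra k Ω), (∀ z ∈ cf p, z ∈ R) →
      ∀ n, algebraMap K Ω (p.coeff n) ∈ R := by
    intro p R h n
    by_cases hn : n ∈ p.support
    · exact h _ (Finset.mem_image_of_mem _ hn)
    · rw [Polynomial.notMem_support_iff.1 hn, map_zero]
      exact R.zero_mem
  let C : Finset Ω := cf P ∪ cf u ∪ cf v ∪ F.biUnion fun z => cf (q z)
  have hcfK : ∀ p : Polynomial K, ∀ z ∈ cf p, z ∈ funField k ξ := by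
    intro p z hz
    obtain ⟨n, _, rfl⟩ := Finset.mem_image.1 hz
    exact (p.coeff n).2
  have hC : ∀ z ∈ C, z ∈ funField k ξ := by
    intro z hz
    simp only [C, Finset.mem_union, Finset.mem_biUnion] at hz
    rcases hz with ((hz | hz) | hz) | ⟨y, _, hz⟩ <;> exact hcfK _ z hz
  obtain ⟨e, g, hadm, hmem⟩ := exists_finset k hξ C hC
  set R : Subalgebra k Ω := coordRing k ξ e g with hR
  have mP : ∀ z ∈ cf P, z ∈ R := fun z hz => hmem z (by simp only [C, Finset.mem_union]; tauto)
  have mu : ∀ z ∈ cf u, z ∈ R := fun z hz => hmem z (by simp only [C, Finset.mem_union]; tauto)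
  have mv : ∀ z ∈ cf v, z ∈ R := fun z hz => hmem z (by simp only [C, Finset.mem_union]; tauto)
  have mq : ∀ y ∈ F, ∀ z ∈ cf (q y), z ∈ R := fun y hy z hz => hmem z (by
    simp only [C, Finset.mem_union, Finset.mem_biUnion]
    exact Or.inr ⟨y, hy, hz⟩)
  obtain ⟨PR, hPR⟩ := lift_poly k R P (hcf P R mP)
  obtain ⟨uR, huR⟩ := lift_poly k R u (hcf u R mu)
  obtain ⟨vR, hvR⟩ := lift_poly k R v (hcf v R mv)
  have hinj : Function.Injective (algebraMap R Ω) := Subtype.val_injective
  have hinjp : Function.Injective (Polynomial.map (algebraMap R Ω)) :=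
    Polynomial.map_injective _ hinj
  have hev : ∀ (p' : Polynomial R) (p : Polynomial K),
      p'.map (algebraMap R Ω) = p.map (algebraMap K Ω) →
      Polynomial.aeval θ p' = Polynomial.aeval θ p := by
    intro p' p h
    rw [Polynomial.aeval_def, Polynomial.aeval_def, ← Polynomial.eval_map, ← Polynomial.eval_map, h]
  have hPmon : P.Monic := minpoly.monic hθi
  have hPRmon : PR.Monic := by
    refine Polynomial.monic_of_injective hinj ?_
    rw [hPR]
    exact hPmon.map _
  have hsepR : PR.Separable := by
    refine ⟨uR, vR, hinjp ?_⟩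
    rw [Polynomial.map_add, Polynomial.map_mul, Polynomial.map_mul, ← Polynomial.derivative_map,
      hPR, huR, hvR, Polynomial.derivative_map, ← Polynomial.map_mul, ← Polynomial.map_mul,
      ← Polynomial.map_add, huv, Polynomial.map_one, Polynomial.map_one]
  let S : Subalgebra k Ω := (Algebra.adjoin R {θ} : Subalgebra R Ω).restrictScalars k
  have hRS : R ≤ S := by
    intro r hr
    exact (Algebra.adjoin R {θ} : Subalgebra R Ω).algebraMap_mem ⟨r, hr⟩
  have hSS : (S : Set Ω) = (Algebra.adjoin R {θ} : Subalgebra R Ω) := rfl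
  have h0 : Polynomial.aeval θ PR = 0 := by
    rw [hev PR P hPR]
    exact minpoly.aeval K θ
  have hmin : ∀ r : Polynomial R, r.degree < PR.degree → Polynomial.aeval θ r = 0 → r = 0 := by
    intro r hr hr0
    obtain ⟨rK, hrK⟩ := lift_poly k K.toSubalgebra r (fun n =>
      coordRing_le_funField k hadm (r.coeff n).2)
    -- reinterpret over K
    have hrK' : (rK : Polynomial K).map (algebraMap K Ω) = r.map (algebraMap R Ω) := hrK
    have hinjK : Function.Injective (algebraMap K Ω) := (algebraMap K Ω).injective
    have h1 : Polynomial.aeval θ (rK : Polynomial K) = 0 := by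
      rw [← hev r rK hrK'.symm, hr0]
    have h2 : (rK : Polynomial K) = 0 := by
      by_contra hne
      have h3 := minpoly.degree_le_of_ne_zero K θ hne h1
      have h4 : (rK : Polynomial K).degree = r.degree := by
        rw [← Polynomial.degree_map_eq_of_injective hinjK, hrK',
          Polynomial.degree_map_eq_of_injective hinj]
      have h5 : P.degree = PR.degree := by
        rw [← Polynomial.degree_map_eq_of_injective hinjK P, ← hPR,
          Polynomial.degree_map_eq_of_injective hinj]
      rw [h4, ← hP, h5] at h3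
      exact absurd hr (not_lt.2 h3)
    apply hinjp
    rw [← hrK', h2, Polynomial.map_zero, Polynomial.map_zero]
  obtain ⟨hf, het⟩ := adjoin_etale k hRS θ hSS PR hPRmon hsepR h0 hmin
  refine ⟨e, g, hadm, S, hRS, hf, het, ?_⟩
  intro z hz
  obtain ⟨qR, hqR⟩ := lift_poly k R (q z) (hcf (q z) R (mq z hz))
  have h1 : z = Polynomial.aeval θ qR := by
    rw [hev qR (q z) hqR]
    exact (hq z hz).symm
  have h2 : z ∈ (Algebra.adjoin R {θ} : Subalgebra R Ω) := by
    rw [h1]
    exact Polynomial.aeval_mem_adjoin_singleton _ _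
  exact h2

end Pool.Agent.SB.SE
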