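import Pool.Agent.Helper6.SE.EDefs

/-!
# SB-E-02 (ET2): transitivity
PROOF.  Given `T` finite étale over `S` and `φ : T →ₐ[S] Ω`.  `S` is a finite étale `R`-algebra via the inclusion (`algebraize`), `T` becomes an `R`-algebra by composition
(`Algebra.compHom` / `((algebraMap S T).comp (inclusion h)).toAlgebra`), scalar tower; `Module.Finite.trans`, `Algebra.Etale.comp`; `φ` is `R`-linear.
Second statement: `S` itself is a finite étale `R`-algebra and the inclusion `S → Ω` is an `R`-algebra homomorphism.
-/

set_option autoImplicit false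

open MvPolynomial IntermediateField NumberField IsDedekindDomain

namespace Pool.Agent.SB

variable (k : Type) [Field k] {Ω : Type} [Field Ω] [Algebra k Ω]

/-- (ET2) transitivity: `S ⊆ Ω` finite étale over `R` -/
theorem etSet_trans {R S : Subalgebra k Ω} (h : R ≤ S)
    (hfin : (Subalgebra.inclusion h).toRingHom.Finite)
    (het : (Subalgebra.inclusion h).toRingHom.Etale) : etSet k S ⊆ etSet k R := by
  rintro θ ⟨T, _, _, hT1, hT2, φ, y, rfl⟩
  letI i1 : Algebra R S := (Subalgebra.inclusion h).toRingHom.toAlgebra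
  letI i2 : Algebra R T := ((algebraMap S T).comp (Subalgebra.inclusion h).toRingHom).toAlgebra
  haveI i3 : IsScalarTower R S T := IsScalarTower.of_algebraMap_eq (fun _ => rfl)
  haveI i4 : Module.Finite R S := hfin
  haveI i5 : Algebra.Etale R S := het
  haveI i6 := hT1
  haveI i7 := hT2
  refine ⟨T, inferInstance, i2, Module.Finite.trans S T, Algebra.Etale.comp R S T, ?_⟩
  refine ⟨{ φ.toRingHom with
    commutes' := fun r => ?_ }, y, rfl⟩
  show φ (algebraMap S T (Subalgebra.inclusion h r)) = algebraMap R Ω r
  rw [φ.commutes]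
  rfl

theorem subset_etSet {R S : Subalgebra k Ω} (h : R ≤ S)
    (hfin : (Subalgebra.inclusion h).toRingHom.Finite)
    (het : (Subalgebra.inclusion h).toRingHom.Etale) : (S : Set Ω) ⊆ etSet k R := by
  intro θ hθ
  letI i1 : Algebra R S := (Subalgebra.inclusion h).toRingHom.toAlgebra
  refine ⟨S, inferInstance, i1, hfin, het, ?_⟩
  exact ⟨{ S.val.toRingHom with commutes' := fun r => rfl }, ⟨θ, hθ⟩, rfl⟩

end Pool.Agent.SB
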