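import Pool.Agent.Helper6.SE.Mono
import Pool.Agent.Helper6.SE.Trans
import Pool.Agent.Helper6.SE.ExEt

/-!
# SB-E-16 (ET4, ET8)
PROOF.  ET4: `M = K(F)`, `F` finite (`IntermediateField.fg_of_finiteDimensional` or a primitive element), `exists_etale`, `subset_etSet`: `F ⊆ S ⊆ etSet R ⊆ etCover`.
ET8: `F = {x} ∪ {(c i : Ω)} ∪ {(x - c i)⁻¹} ∪` (a `k`-basis of `k1`, or a generator), all algebraic over `K` (`Ω/K` is algebraic).  `exists_etale`: `S ⊇ F`, so `xring k k1 x c ≤ S` (`Algebra.adjoin_le`; the elements of `k1` are `k`-linear combinations of the basis).  `etSet (xring) ⊆ etSet S ⊆ etSet (coordRing e g)` (`etSet_mono`, `etSet_trans`);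
`etField k (xring) = adjoin k (etSet ..)` and `etCover` is (as a set) a subfield of `Ω` containing `k` and `etSet (coordRing e g)` (`IntermediateField.adjoin_induction` or `adjoin_le_iff` with `restrictScalars k`).
-/

set_option autoImplicit false

open MvPolynomial IntermediateField NumberField IsDedekindDomain

namespace Pool.Agent.SB

variable (k : Type) [Field k] [CharZero k] {Ω : Type} [Field Ω] [Algebra k Ω]
  {n : ℕ} (ξ : Fin (n + 1) → Ω)

/-- (ET4) every finite extension of `K` is inside some `K_U` -/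
theorem exists_etCover (hξ : ξ ≠ 0) (M : IntermediateField (funField k ξ) Ω)
    [FiniteDimensional (funField k ξ) M] :
    ∃ e g, Adm k ξ e g ∧ M ≤ etCover k ξ e g := by
  classical
  have hcz : CharZero (funField k ξ) :=
    charZero_of_injective_algebraMap (algebraMap k (funField k ξ)).injective
  obtain ⟨α, hα⟩ := Field.exists_primitive_element (funField k ξ) M
  have hαi : IsIntegral (funField k ξ) α := Algebra.IsIntegral.isIntegral α
  have hαa : IsAlgebraic (funField k ξ) (α : Ω) :=
    (hαi.map (IsScalarTower.toAlgHom (funField k ξ) M Ω)).isAlgebraic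
  obtain ⟨e, g, hadm, S, h, hfin, het, hS⟩ := SE.exists_etale k hξ {(α : Ω)} (by
    intro z hz
    rw [Finset.mem_singleton] at hz
    rw [hz]
    exact hαa)
  refine ⟨e, g, hadm, ?_⟩
  have hM : M = IntermediateField.adjoin (funField k ξ) {(α : Ω)} := by
    have h1 : IntermediateField.lift (⊤ : IntermediateField (funField k ξ) M) = M :=
      IntermediateField.lift_top (funField k ξ) M
    rw [← hα, IntermediateField.lift_adjoin_simple] at h1
    exact h1.symm
  rw [hM, IntermediateField.adjoin_le_iff]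
  intro z hz
  rw [Set.mem_singleton_iff] at hz
  rw [hz]
  exact IntermediateField.subset_adjoin _ _
    (subset_etSet k h hfin het (hS _ (Finset.mem_singleton_self _)))

/-- (ET8) the étale covers of `ℙ¹ ∖ {c 0, c 1, c 2, ∞}` with coordinate `x` pulled back to a
suitable open set -/
theorem exists_xring (hξ : ξ ≠ 0) [Algebra.IsAlgebraic (funField k ξ) Ω]
    (k1 : IntermediateField k (kbar k Ω)) [FiniteDimensional k k1] (x : Ω)
    (c : Fin 3 → kbar k Ω) (hx : ∀ i, x ≠ (c i : Ω)) :
    ∃ e g, Adm k ξ e g ∧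
      ∀ θ ∈ etField k (xring k k1 x c), θ ∈ etCover k ξ e g := by
  classical
  let b := Module.finBasis k k1
  let F : Finset Ω := {x} ∪ Finset.univ.image (fun i => (c i : Ω)) ∪
    Finset.univ.image (fun i => (x - (c i : Ω))⁻¹) ∪
    Finset.univ.image (fun j => (((b j : k1) : kbar k Ω) : Ω))
  obtain ⟨e, g, hadm, S, h, hfin, het, hS⟩ := SE.exists_etale k hξ F
    (fun z _ => Algebra.IsAlgebraic.isAlgebraic z)
  refine ⟨e, g, hadm, ?_⟩
  have hk1 : ∀ a ∈ k1, (a : Ω) ∈ S := by
    intro a ha
    have h1 := b.sum_repr ⟨a, ha⟩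
    have h2 : (a : Ω) = ∑ j, (b.repr ⟨a, ha⟩ j) • (((b j : k1) : kbar k Ω) : Ω) := by
      have h3 := congrArg (fun y : k1 => ((y : kbar k Ω) : Ω)) h1
      simp only at h3
      rw [← h3]
      push_cast
      rfl
    rw [h2]
    refine Subalgebra.sum_mem _ fun j _ => Subalgebra.smul_mem _ (hS _ ?_) _
    simp [F]
  have hx' : xring k k1 x c ≤ S := by
    unfold xring
    apply Algebra.adjoin_le
    rintro z ((⟨a, ha, rfl⟩ | hz) | ⟨i, rfl⟩)
    · exact hk1 a ha
    · rw [Set.mem_singleton_iff] at hz
      rw [hz]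
      exact hS _ (by simp [F])
    · exact hS _ (by simp [F])
  have hle : etField k (xring k k1 x c) ≤ (etCover k ξ e g).restrictScalars k := by
    unfold etField
    rw [IntermediateField.adjoin_le_iff]
    intro θ hθ
    have h1 : θ ∈ etSet k S := etSet_mono k hx' hθ
    have h2 : θ ∈ etSet k (coordRing k ξ e g) := etSet_trans k h hfin het h1
    exact IntermediateField.subset_adjoin (funField k ξ) _ h2
  intro θ hθ
  exact hle hθ

end Pool.Agent.SB
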