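import Mathlib

/-!
# SB-E-11: the integral closure of a finitely generated domain of characteristic `0` is finite
PROOF.  Noether normalisation (`exists_integral_inj_algHom_of_fg` or similar, Mathlib `RingTheory/NoetherNormalization.lean`): an injective integral (finite) `P = MvPolynomial (Fin s) k → R`.  `K = FractionRing R` is a finite (hence separable, characteristic `0`) extension of the
fraction field of `P`.  `P` is integrally closed (UFD) and Noetherian, so the integral closure `C` of `P` in `K` is a finite `P`-module (`IsIntegralClosure.finite`), so a finite `R`-module; the integral closure of `R` in `K` is the same set (`R` is integral over `P`).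
-/

set_option autoImplicit false

namespace Pool.Agent.SB.SE

theorem finite_integralClosure (k : Type) [Field k] [CharZero k] (R : Type) [CommRing R]
    [IsDomain R] [Algebra k R] [Algebra.FiniteType k R] :
    Module.Finite R (integralClosure R (FractionRing R)) := by
  obtain ⟨s, g, hg, hfin⟩ := exists_finite_inj_algHom_of_fg k R
  let P := MvPolynomial (Fin s) k
  letI : Algebra P R := g.toRingHom.toAlgebra
  haveI hfinPR : Module.Finite P R := hfin
  haveI : FaithfulSMul P R := (faithfulSMul_iff_algebraMap_injective P R).2 hg
  haveI hint : Algebra.IsIntegral P R := Algebra.IsIntegral.of_finite P R
  letI : Algebra (FractionRing P) (FractionRing R) := FractionRing.liftAlgebra P (FractionRing R)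
  haveI : IsScalarTower P (FractionRing P) (FractionRing R) :=
    FractionRing.isScalarTower_liftAlgebra P (FractionRing R)
  haveI : FiniteDimensional (FractionRing P) (FractionRing R) := inferInstance
  haveI : CharZero (FractionRing P) :=
    charZero_of_injective_algebraMap (algebraMap k (FractionRing P)).injective
  haveI : Algebra.IsSeparable (FractionRing P) (FractionRing R) := inferInstance
  haveI hC : IsIntegralClosure (integralClosure R (FractionRing R)) P (FractionRing R) := by
    refine ⟨Subtype.val_injective, ?_⟩
    intro x
    constructor
    · intro hx
      exact ⟨⟨x, hx.tower_top⟩, rfl⟩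
    · rintro ⟨y, rfl⟩
      exact isIntegral_trans (A := R) _ y.2
  haveI : Module.Finite P (integralClosure R (FractionRing R)) :=
    IsIntegralClosure.finite P (FractionRing P) (FractionRing R)
      (integralClosure R (FractionRing R))
  exact Module.Finite.of_restrictScalars_finite P R _

end Pool.Agent.SB.SE
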