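import Pool.Agent.Helper6.SE.EDefs
import Pool.Agent.Helper6.SE.FinInt

/-!
# SB-E-12: a finitely generated domain becomes integrally closed after inverting one element
PROOF.  Let `C = integralClosure R K`, `K = FractionRing R`, generated as an `R`-module by `c_1, ..., c_r` (SB-E-11), `t` a common denominator: `t ≠ 0` in `R`, `t c_i ∈ R` (`IsLocalization.exist_integer_multiples`).  Let `B` be a subalgebra of the field `Ω`, `A ≤ B`, `t⁻¹ ∈ B`, `B` integrally closed?  For every `b` in the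
fraction field of `B` (inside `Ω`) integral over `B` where every element of `B` is `a / t^m`: `b t^m` is integral over `A` for some `m` (clear denominators: `IsIntegral.exists_multiple_integral_of_isLocalization`) and in `Frac A`, so in `C`-span, so `b t^(m+1) ∈ A` and `b ∈ B`.
-/

set_option autoImplicit false

namespace Pool.Agent.SB.SE

variable (k : Type) [Field k] [CharZero k] {Ω : Type} [Field Ω] [Algebra k Ω]

private theorem exists_t (A : Subalgebra k Ω) (hA : A.FG) :
    ∃ t ∈ A, t ≠ 0 ∧ ∀ w : Ω, IsIntegral A w → ∀ a₁ ∈ A, ∀ a₂ ∈ A, a₂ ≠ 0 → w * a₂ = a₁ →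
      t * w ∈ A := by
  classical
  haveI : Algebra.FiniteType k A := A.fg_iff_finiteType.1 hA
  haveI := finite_integralClosure k A
  obtain ⟨S, hS⟩ := Module.Finite.fg_top (R := A) (M := integralClosure A (FractionRing A))
  obtain ⟨b, hb⟩ := IsLocalization.exist_integer_multiples_of_finset (nonZeroDivisors A)
    (S.image (Subtype.val : integralClosure A (FractionRing A) → FractionRing A))
  have hC : ∀ c : integralClosure A (FractionRing A),
      ∃ a : A, algebraMap A (FractionRing A) a = (b : A) • (c : FractionRing A) := by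
    intro c
    have hc : c ∈ Submodule.span A (S : Set (integralClosure A (FractionRing A))) := by
      rw [hS]; exact Submodule.mem_top
    induction hc using Submodule.span_induction with
    | mem x hx => exact hb _ (Finset.mem_image_of_mem Subtype.val (Finset.mem_coe.1 hx))
    | zero => exact ⟨0, by simp⟩
    | add x y _ _ hx hy =>
      obtain ⟨a, ha⟩ := hx
      obtain ⟨a', ha'⟩ := hy
      exact ⟨a + a', by rw [map_add, ha, ha', ← smul_add]; rfl⟩
    | smul r x _ hx =>
      obtain ⟨a, ha⟩ := hx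
      refine ⟨r * a, ?_⟩
      rw [map_mul, ha, ← Algebra.smul_def, smul_comm]
      rfl
  have hinj : Function.Injective (Algebra.ofId A Ω) := Subtype.val_injective
  let φ : FractionRing A →ₐ[A] Ω := IsFractionRing.liftAlgHom (K := FractionRing A) hinj
  have hφ : Function.Injective φ := φ.toRingHom.injective
  have hb0 : ((b : A) : Ω) ≠ 0 := by
    intro h
    exact nonZeroDivisors.ne_zero b.2 (Subtype.ext h)
  refine ⟨((b : A) : Ω), (b : A).2, hb0, ?_⟩
  intro w hw a₁ ha₁ a₂ ha₂ h0 hmul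
  let q : FractionRing A := algebraMap A _ ⟨a₁, ha₁⟩ / algebraMap A _ ⟨a₂, ha₂⟩
  have hq : φ q = w := by
    change φ (algebraMap A _ ⟨a₁, ha₁⟩ / algebraMap A _ ⟨a₂, ha₂⟩) = w
    rw [map_div₀, AlgHom.commutes, AlgHom.commutes]
    change a₁ / a₂ = w
    rw [← hmul]
    field_simp
  have hqi : IsIntegral A q := by
    rw [← hq] at hw
    exact (isIntegral_algHom_iff φ hφ).1 hw
  obtain ⟨a, ha⟩ := hC ⟨q, hqi⟩
  have h1 := congrArg φ ha
  rw [AlgHom.commutes] at h1
  have h2 : φ ((b : A) • q) = (b : A) • φ q := map_smul φ _ _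
  change algebraMap A Ω a = φ ((b : A) • q) at h1
  rw [h2, hq] at h1
  have h3 : ((b : A) : Ω) * w = (a : Ω) := h1.symm
  rw [h3]
  exact a.2

/-- `A` finitely generated subalgebra of the field `Ω`: there is `t ≠ 0` in `A` such that every
localisation of `A` at a multiple of `t` is integrally closed -/
theorem exists_normal_loc (A : Subalgebra k Ω) (hA : A.FG) :
    ∃ t ∈ A, t ≠ 0 ∧ ∀ B : Subalgebra k Ω, A ≤ B → t⁻¹ ∈ B →
      (∀ b ∈ B, ∃ m : ℕ, b * t ^ m ∈ A) → IsIntegrallyClosed B := by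
  obtain ⟨t, ht, h0, hint⟩ := exists_t k A hA
  refine ⟨t, ht, h0, fun B hAB htB hB => ?_⟩
  letI : Algebra A B := (Subalgebra.inclusion hAB).toRingHom.toAlgebra
  haveI : IsScalarTower A B Ω := IsScalarTower.of_algebraMap_eq (fun _ => rfl)
  let t' : A := ⟨t, ht⟩
  have htB' : t ∈ B := hAB ht
  haveI : IsLocalization (Submonoid.powers t') B := by
    rw [isLocalization_iff]
    refine ⟨?_, ?_, ?_⟩
    · rintro ⟨_, j, rfl⟩
      have h1 : IsUnit (algebraMap A B t') := by
        refine IsUnit.of_mul_eq_one ⟨t⁻¹, htB⟩ (Subtype.ext ?_)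
        change t * t⁻¹ = 1
        exact mul_inv_cancel₀ h0
      have h2 := h1.pow j
      rw [← map_pow] at h2
      exact h2
    · intro z
      obtain ⟨m, hm⟩ := hB z z.2
      refine ⟨(⟨z * t ^ m, hm⟩, ⟨t' ^ m, m, rfl⟩), Subtype.ext ?_⟩
      rfl
    · intro x y hxy
      refine ⟨1, ?_⟩
      have h2 : ((algebraMap A B x : B) : Ω) = ((algebraMap A B y : B) : Ω) :=
        congrArg Subtype.val hxy
      have h1 : (x : Ω) = (y : Ω) := h2
      rw [Subtype.ext h1]
  rw [isIntegrallyClosed_iff (FractionRing B)]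
  intro x hx
  have hinj : Function.Injective (Algebra.ofId B Ω) := Subtype.val_injective
  let ψ : FractionRing B →ₐ[B] Ω := IsFractionRing.liftAlgHom (K := FractionRing B) hinj
  have hψ : Function.Injective ψ := ψ.toRingHom.injective
  have hx' : IsIntegral B (ψ x) := (isIntegral_algHom_iff ψ hψ).2 hx
  obtain ⟨⟨_, j, rfl⟩, hj⟩ := IsIntegral.exists_multiple_integral_of_isLocalization
    (Submonoid.powers t') (ψ x) hx'
  have hj' : IsIntegral A (t ^ j * ψ x) := hj
  obtain ⟨b₁, b₂, hb2, hxb⟩ := IsFractionRing.div_surjective (A := B) x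
  have hb20 : (b₂ : Ω) ≠ 0 := by
    intro h
    exact nonZeroDivisors.ne_zero hb2 (Subtype.ext h)
  have hxe : ψ x * b₂ = b₁ := by
    rw [← hxb, map_div₀, AlgHom.commutes, AlgHom.commutes]
    change (b₁ : Ω) / b₂ * b₂ = b₁
    field_simp
  obtain ⟨m₁, hm₁⟩ := hB b₁ b₁.2
  obtain ⟨m₂, hm₂⟩ := hB b₂ b₂.2
  have key := hint (t ^ j * ψ x) hj' (t ^ j * (b₁ * t ^ m₁) * t ^ m₂)
    (A.mul_mem (A.mul_mem (A.pow_mem ht _) hm₁) (A.pow_mem ht _))
    (b₂ * t ^ m₂ * t ^ m₁) (A.mul_mem hm₂ (A.pow_mem ht _))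
    (mul_ne_zero (mul_ne_zero hb20 (pow_ne_zero _ h0)) (pow_ne_zero _ h0))
    (by rw [← hxe]; ring)
  have hB' : ψ x ∈ B := by
    have e : (t⁻¹) ^ (j + 1) * t ^ (j + 1) = 1 := by
      rw [← mul_pow, inv_mul_cancel₀ h0, one_pow]
    have h1 : ψ x = (t⁻¹) ^ (j + 1) * (t * (t ^ j * ψ x)) := by
      calc ψ x = ((t⁻¹) ^ (j + 1) * t ^ (j + 1)) * ψ x := by rw [e, one_mul]
        _ = (t⁻¹) ^ (j + 1) * (t * (t ^ j * ψ x)) := by rw [pow_succ t]; ring
    rw [h1]
    exact B.mul_mem (B.pow_mem htB _) (hAB key)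
  refine ⟨⟨ψ x, hB'⟩, hψ ?_⟩
  rw [AlgHom.commutes]
  rfl

end Pool.Agent.SB.SE
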