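import Pool.Agent.Helper6.SE.CoordMul
import Pool.Agent.Helper6.SE.NormLoc

/-!
# SB-E-13 (ET6b): there is a normal affine open set
PROOF.  `ξ_j ≠ 0`; `A = coordRing 1 (X j)` is generated by the finitely many `ξ_i / ξ_j` (a linear form is a linear combination of the `X i`), so `A.FG`.  Take `t` from `exists_normal_loc`, `t = f / X_j^m`, `f` homogeneous of degree `m` (`exists_rep`, `e = 1`); replacing `(m, f)` by `(m + 1, f X_j)` we may assume `m > 0`.  `f(ξ) ≠ 0`.
`B = coordRing (1 + m) (X_j f)`: by `SE.coordRing_mul_loc` (with `e = 1`, `g = X j`, `e' = m`, `g' = f`, `g'^1 / g^m = t`) it satisfies the three conditions.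
-/

set_option autoImplicit false

open MvPolynomial IntermediateField NumberField IsDedekindDomain

namespace Pool.Agent.SB

variable (k : Type) [Field k] [CharZero k] {Ω : Type} [Field Ω] [Algebra k Ω]
  {n : ℕ} (ξ : Fin (n + 1) → Ω)

omit [CharZero k] in
private theorem en_linear (S : Subalgebra k Ω) (c : Ω) (hS : ∀ i, ξ i * c ∈ S)
    {f : MvPolynomial (Fin (n + 1)) k} (hf : f.IsHomogeneous 1) : aeval ξ f * c ∈ S := by
  classical
  rw [f.as_sum, map_sum, Finset.sum_mul]
  refine Subalgebra.sum_mem _ fun d hd => ?_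
  have h1 : d.degree = 1 := by
    by_contra hne
    exact (mem_support_iff.1 hd) (hf.coeff_eq_zero hne)
  obtain ⟨i, rfl⟩ := (Finsupp.sum_eq_one_iff d).1 h1
  have h2 : ((Finsupp.single i 1 : Fin (n + 1) →₀ ℕ).prod fun i k => ξ i ^ k) = ξ i := by
    rw [Finsupp.prod_single_index (h := fun i k => ξ i ^ k) (pow_zero _), pow_one]
  rw [aeval_monomial, h2, mul_assoc, ← Algebra.smul_def]
  exact Subalgebra.smul_mem _ (hS i) _

omit [CharZero k] in
private theorem en_fg {j : Fin (n + 1)} : (coordRing k ξ 1 (X j)).FG := by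
  classical
  refine ⟨Finset.univ.image (fun i => ξ i / ξ j), ?_⟩
  apply le_antisymm
  · refine Algebra.adjoin_le ?_
    intro z hz
    rw [Finset.coe_image, Set.mem_image] at hz
    obtain ⟨i, -, rfl⟩ := hz
    refine Algebra.subset_adjoin ⟨X i, isHomogeneous_X k i, ?_⟩
    rw [aeval_X, aeval_X]
  · refine Algebra.adjoin_le ?_
    rintro z ⟨f, hf, rfl⟩
    rw [aeval_X, div_eq_mul_inv]
    refine en_linear k ξ _ _ (fun i => ?_) hf
    rw [← div_eq_mul_inv]
    refine Algebra.subset_adjoin ?_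
    rw [Finset.coe_image, Set.mem_image]
    exact ⟨i, Finset.mem_coe.2 (Finset.mem_univ _), rfl⟩

/-- (ET6b) there is a normal affine open set -/
theorem exists_normal (hξ : ξ ≠ 0) : ∃ e g, Adm k ξ e g ∧
    IsIntegrallyClosed (coordRing k ξ e g) := by
  obtain ⟨j, hj⟩ := Function.ne_iff.1 hξ
  have hj0 : ξ j ≠ 0 := hj
  have hX : Adm k ξ 1 (X j) := ⟨one_pos, isHomogeneous_X k j, by rw [aeval_X]; exact hj0⟩
  obtain ⟨t, ht, ht0, hB⟩ := SE.exists_normal_loc k (coordRing k ξ 1 (X j)) (en_fg k ξ)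
  obtain ⟨m, f, hf, htf⟩ := SE.exists_rep k hX ht
  rw [one_mul] at hf
  have hXne : aeval ξ (X j : MvPolynomial (Fin (n + 1)) k) ≠ 0 := hX.ne
  have htf' : t = aeval ξ (f * X j) ^ 1 / aeval ξ (X j : MvPolynomial (Fin (n + 1)) k) ^ (m + 1) := by
    rw [pow_one, map_mul, pow_succ, mul_div_mul_right _ _ hXne]
    exact htf
  have hf' : Adm k ξ (m + 1) (f * X j) := by
    refine ⟨Nat.succ_pos m, hf.mul (isHomogeneous_X k j), ?_⟩
    intro h0
    rw [h0, pow_one, zero_div] at htf'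
    exact ht0 htf'
  obtain ⟨-, h2, h3⟩ := SE.coordRing_mul_loc k hX hf'
  rw [← htf'] at h2 h3
  exact ⟨1 + (m + 1), X j * (f * X j), hX.mul k hf',
    hB _ (SE.coordRing_le_mul k hX hf') h2 h3⟩

end Pool.Agent.SB
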