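import Pool.Agent.Helper6.SE.KDefs

/-!
# SB-E-23: an ideal `J` with `β J^N = (α)` has an inverse: the data `j, b`
PROOF.  `α ∈ (β) J^N = J ((β) J^(N-1))`, so `α = ∑_m j_m (β w_m)` with `j_m ∈ J`, `w_m ∈ J^(N-1)` (elements of a product of ideals are finite sums of products, `Submodule.mul_induction_on` or similar).  `b_m = β w_m / α ∈ EW`.  `∑ j_m b_m = 1`.  `j_m b_n = β (j_m w_n) / α`, `j_m w_n ∈ J^N`, `β (j_m w_n) ∈ (α)`: in `OW`.
`b_m^N (α/β) = β^(N-1) w_m^N / α^(N-1)`; `w_m^N ∈ J^(N (N-1))` and `(β)^(N-1) J^(N (N-1)) = (α)^(N-1)`: in `OW`.  `j_m^N (β/α) = β j_m^N / α`, `j_m^N ∈ J^N`: in `OW`.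
-/

set_option autoImplicit false

open MvPolynomial IntermediateField NumberField IsDedekindDomain

namespace Pool.Agent.SB.SE

variable (k : Type) [Field k] {Ω : Type} [Field Ω] [Algebra k Ω]

private theorem exists_sum {R : Type} [CommRing R] (I K : Ideal R) (z : R) (hz : z ∈ I * K) :
    ∃ (r : ℕ) (a b : Fin r → R), (∀ m, a m ∈ I) ∧ (∀ m, b m ∈ K) ∧ z = ∑ m, a m * b m := by
  refine Submodule.mul_induction_on hz ?_ ?_
  · intro a ha b hb
    refine ⟨1, fun _ => a, fun _ => b, fun _ => ha, fun _ => hb, ?_⟩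
    simp
  · rintro z w ⟨r, a, b, ha, hb, rfl⟩ ⟨r', a', b', ha', hb', rfl⟩
    refine ⟨r + r', Fin.append a a', Fin.append b b', ?_, ?_, ?_⟩
    · intro m
      refine Fin.addCases (fun i => ?_) (fun i => ?_) m
      · rw [Fin.append_left]; exact ha i
      · rw [Fin.append_right]; exact ha' i
    · intro m
      refine Fin.addCases (fun i => ?_) (fun i => ?_) m
      · rw [Fin.append_left]; exact hb i
      · rw [Fin.append_right]; exact hb' i
    · rw [Fin.sum_univ_add]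
      simp only [Fin.append_left, Fin.append_right]

theorem exists_frac (x y : Ω) (N : ℕ) (hN : 0 < N) (J : Ideal (OW k x y)) (α β : OW k x y)
    (hα : α ≠ 0) (hβ : β ≠ 0) (hJ : Ideal.span {β} * J ^ N = Ideal.span {α}) :
    ∃ (r : ℕ) (j b : Fin r → Ω), (∀ m, j m ∈ EW k x y) ∧ (∀ m, b m ∈ EW k x y) ∧
      (∀ m n, j m * b n ∈ OW k x y) ∧ ∑ m, j m * b m = 1 ∧
      (∀ m, b m ^ N * ((α : Ω) / (β : Ω)) ∈ OW k x y) ∧
      (∀ m, j m ^ N * ((β : Ω) / (α : Ω)) ∈ OW k x y) := by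
  obtain ⟨M, rfl⟩ : ∃ M, N = M + 1 := ⟨N - 1, (Nat.sub_add_cancel hN).symm⟩
  have hα' : (α : Ω) ≠ 0 := fun h => hα (Subtype.ext h)
  have hβ' : (β : Ω) ≠ 0 := fun h => hβ (Subtype.ext h)
  set K : Ideal (OW k x y) := Ideal.span {β} * J ^ M with hK
  have hJK : J * K = Ideal.span {α} := by
    rw [← hJ, hK]
    ring
  have hKN : K ^ (M + 1) = Ideal.span {β * α ^ M} := by
    have h1 : Ideal.span {β * α ^ M} = Ideal.span {β} * Ideal.span {α} ^ M := by
      rw [Ideal.span_singleton_pow, Ideal.span_singleton_mul_span_singleton]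
    rw [h1, ← hJ, hK]
    ring
  have hα1 : α ∈ J * K := by
    rw [hJK]; exact Ideal.mem_span_singleton_self α
  obtain ⟨r, j, κ, hj, hκ, hsum⟩ := exists_sum J K α hα1
  refine ⟨r, fun m => (j m : Ω), fun m => (κ m : Ω) / (α : Ω), fun m => (j m).2.1,
    fun m => div_mem (κ m).2.1 α.2.1, ?_, ?_, ?_, ?_⟩
  · intro m n
    have h1 : j m * κ n ∈ Ideal.span {α} := by
      rw [← hJK]; exact Ideal.mul_mem_mul (hj m) (hκ n)
    obtain ⟨t, ht⟩ := Ideal.mem_span_singleton'.1 h1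
    have h2 : (j m : Ω) * ((κ n : Ω) / (α : Ω)) = (t : Ω) := by
      have h3 : (t : Ω) * (α : Ω) = (j m : Ω) * (κ n : Ω) := congrArg Subtype.val ht
      rw [← mul_div_assoc, ← h3, mul_div_assoc, div_self hα', mul_one]
    change (j m : Ω) * ((κ n : Ω) / (α : Ω)) ∈ OW k x y
    rw [h2]
    exact t.2
  · have h1 : (α : Ω) = ∑ m, (j m : Ω) * (κ m : Ω) := by
      have h2 := congrArg Subtype.val hsum
      rw [h2, AddSubmonoidClass.coe_finsetSum]
      rfl
    have h3 : ∀ m, (j m : Ω) * ((κ m : Ω) / (α : Ω)) = (j m : Ω) * (κ m : Ω) / (α : Ω) :=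
      fun m => (mul_div_assoc _ _ _).symm
    rw [Finset.sum_congr rfl (fun m _ => h3 m), ← Finset.sum_div, ← h1, div_self hα']
  · intro m
    have h1 : κ m ^ (M + 1) ∈ Ideal.span {β * α ^ M} := by
      rw [← hKN]; exact Ideal.pow_mem_pow (hκ m) _
    obtain ⟨t, ht⟩ := Ideal.mem_span_singleton'.1 h1
    have h3 : (t : Ω) * ((β : Ω) * (α : Ω) ^ M) = (κ m : Ω) ^ (M + 1) := congrArg Subtype.val ht
    have h2 : ((κ m : Ω) / (α : Ω)) ^ (M + 1) * ((α : Ω) / (β : Ω)) = (t : Ω) := by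
      rw [div_pow, ← h3, pow_succ]
      field_simp
    change ((κ m : Ω) / (α : Ω)) ^ (M + 1) * ((α : Ω) / (β : Ω)) ∈ OW k x y
    rw [h2]
    exact t.2
  · intro m
    have h1 : β * j m ^ (M + 1) ∈ Ideal.span {α} := by
      rw [← hJ]
      exact Ideal.mul_mem_mul (Ideal.mem_span_singleton_self β) (Ideal.pow_mem_pow (hj m) _)
    obtain ⟨t, ht⟩ := Ideal.mem_span_singleton'.1 h1
    have h3 : (t : Ω) * (α : Ω) = (β : Ω) * (j m : Ω) ^ (M + 1) := congrArg Subtype.val ht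
    have h2 : (j m : Ω) ^ (M + 1) * ((β : Ω) / (α : Ω)) = (t : Ω) := by
      rw [← mul_div_assoc, mul_comm ((j m : Ω) ^ (M + 1)), ← h3, mul_div_assoc, div_self hα',
        mul_one]
    change (j m : Ω) ^ (M + 1) * ((β : Ω) / (α : Ω)) ∈ OW k x y
    rw [h2]
    exact t.2

end Pool.Agent.SB.SE
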