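import Mathlib

/-!
# SB-E-19: integral elements of `K(y)`, `y^l = u` a unit, `l` a unit
PROOF.  `y ≠ 0` is integral over `A`.  `P = minpoly K y`; it is the image of `minpoly A y` (`minpoly.isIntegrallyClosed_eq_field_fractions`).  `X^l - u = P Q` with `Q` over `A` (`minpoly.isIntegrallyClosed_dvd`), so `P'(y) Q(y) = l y^(l-1)`, hence `P'(y) · (Q(y) y u⁻¹ l⁻¹) = 1` with all factors integral over `A`.
Let `L = K(y)` (`IntermediateField.adjoin K {y}`), power basis with generator `y` (`IntermediateField.adjoin.powerBasis`).  `Algebra.discr_powerBasis_eq_norm`: the discriminant is `± N(P'(y))`; `N(P'(y))` and its inverse `N(P'(y)⁻¹)` are integral over `A` and in `K`, so in `A` (`IsIntegrallyClosed`).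
`Algebra.discr_mul_isIntegral_mem_adjoin`: `discr • z ∈ Algebra.adjoin A {y}`; divide by the unit `discr`.
-/

set_option autoImplicit false

namespace Pool.Agent.SB.SE

theorem mem_adjoin_root {A K L : Type} [CommRing A] [IsDomain A] [IsIntegrallyClosed A] [Field K]
    [CharZero K] [Algebra A K] [IsFractionRing A K] [Field L] [Algebra K L] [Algebra A L]
    [IsScalarTower A K L] (l : ℕ) (hl : 0 < l) (hlA : IsUnit (l : A)) (u : A) (hu : IsUnit u)
    (y : L) (hy : y ^ l = algebraMap A L u) (z : L) (hz : z ∈ IntermediateField.adjoin K {y})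
    (hz' : IsIntegral A z) : z ∈ Algebra.adjoin A {y} := by
  have hyA : IsIntegral A y := by
    refine ⟨Polynomial.X ^ l - Polynomial.C u, Polynomial.monic_X_pow_sub_C u hl.ne', ?_⟩
    rw [Polynomial.eval₂_sub, Polynomial.eval₂_X_pow, Polynomial.eval₂_C, hy, sub_self]
  have hyK : IsIntegral K y := hyA.tower_top
  have hst0 : IsScalarTower A K (IntermediateField.adjoin K {y}) := inferInstance
  have hst : IsScalarTower A (IntermediateField.adjoin K {y}) L :=
    IsScalarTower.of_algebraMap_eq (fun r => by
      rw [IsScalarTower.algebraMap_apply A K (IntermediateField.adjoin K {y}),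
        ← IsScalarTower.algebraMap_apply K (IntermediateField.adjoin K {y}) L,
        ← IsScalarTower.algebraMap_apply A K L])
  have htf : Module.IsTorsionFree A (IntermediateField.adjoin K {y}) := by
    rw [Module.isTorsionFree_iff_algebraMap_injective,
      IsScalarTower.algebraMap_eq A K (IntermediateField.adjoin K {y})]
    exact (algebraMap K (IntermediateField.adjoin K {y})).injective.comp
      (IsFractionRing.injective A K)
  have hfin : FiniteDimensional K (IntermediateField.adjoin K {y}) :=
    IntermediateField.adjoin.finiteDimensional hyK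
  obtain ⟨pb, hpb⟩ : ∃ pb : PowerBasis K (IntermediateField.adjoin K {y}),
      pb.gen = IntermediateField.AdjoinSimple.gen K y :=
    ⟨IntermediateField.adjoin.powerBasis hyK, IntermediateField.adjoin.powerBasis_gen hyK⟩
  have hgL : algebraMap (IntermediateField.adjoin K {y}) L pb.gen = y := by
    rw [hpb]
    exact IntermediateField.AdjoinSimple.algebraMap_gen K y
  have hinj : Function.Injective (algebraMap (IntermediateField.adjoin K {y}) L) :=
    (algebraMap (IntermediateField.adjoin K {y}) L).injective
  have hint : IsIntegral A pb.gen := by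
    rw [← isIntegral_algebraMap_iff hinj, hgL]
    exact hyA
  have hzint : IsIntegral A (⟨z, hz⟩ : IntermediateField.adjoin K {y}) := by
    rw [← isIntegral_algebraMap_iff hinj]
    exact hz'
  have hmem := Algebra.discr_mul_isIntegral_mem_adjoin K hint hzint
  have hgl : pb.gen ^ l = algebraMap A (IntermediateField.adjoin K {y}) u := by
    apply hinj
    rw [map_pow, hgL, hy]
    rfl
  have hP : minpoly K pb.gen = (minpoly A pb.gen).map (algebraMap A K) :=
    minpoly.isIntegrallyClosed_eq_field_fractions K _ hint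
  have hdvd : minpoly A pb.gen ∣ Polynomial.X ^ l - Polynomial.C u := by
    apply minpoly.isIntegrallyClosed_dvd hint
    rw [map_sub, map_pow, Polynomial.aeval_X, Polynomial.aeval_C, hgl, sub_self]
  obtain ⟨Q, hQ⟩ := hdvd
  have hder := congrArg (fun p => Polynomial.aeval pb.gen (Polynomial.derivative p)) hQ
  simp only [Polynomial.derivative_mul, Polynomial.derivative_sub, Polynomial.derivative_C,
    Polynomial.derivative_X_pow, sub_zero, map_add, map_mul, minpoly.aeval, zero_mul, add_zero,
    map_pow, Polynomial.aeval_X, Polynomial.aeval_C] at hder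
  obtain ⟨lu, hlu⟩ := hlA.mul hu
  obtain ⟨w, hw⟩ : ∃ w, w = Polynomial.aeval pb.gen (Polynomial.derivative (minpoly A pb.gen)) :=
    ⟨_, rfl⟩
  obtain ⟨w', hw'⟩ : ∃ w', w' = Polynomial.aeval pb.gen Q * pb.gen *
      algebraMap A (IntermediateField.adjoin K {y}) ((lu⁻¹ : Aˣ) : A) := ⟨_, rfl⟩
  have haev : ∀ p : Polynomial A, IsIntegral A (Polynomial.aeval pb.gen p) := by
    intro p
    have h1 : Polynomial.aeval pb.gen p ∈ Algebra.adjoin A {pb.gen} :=
      Polynomial.aeval_mem_adjoin_singleton A pb.gen
    exact (Algebra.IsIntegral.adjoin (by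
      intro t ht
      rw [Set.mem_singleton_iff.mp ht]
      exact hint)).isIntegral (⟨_, h1⟩ : Algebra.adjoin A {pb.gen}) |>.map
        (Algebra.adjoin A {pb.gen}).val
  have hwi : IsIntegral A w := by
    rw [hw]
    exact haev _
  have hwi' : IsIntegral A w' := by
    rw [hw']
    exact ((haev _).mul hint).mul isIntegral_algebraMap
  have hone : w * w' = 1 := by
    have h1 : w * Polynomial.aeval pb.gen Q * pb.gen =
        algebraMap A (IntermediateField.adjoin K {y}) lu := by
      rw [hw, ← hder, hlu, map_mul, ← hgl, map_natCast, mul_assoc, ← pow_succ,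
        Nat.sub_add_cancel hl]
    rw [hw', ← mul_assoc, ← mul_assoc, h1, ← map_mul, Units.mul_inv, map_one]
  have hn1 := Algebra.isIntegral_norm K hwi
  have hn2 := Algebra.isIntegral_norm K hwi'
  obtain ⟨a, ha⟩ := IsIntegrallyClosed.isIntegral_iff.mp hn1
  obtain ⟨b, hb⟩ := IsIntegrallyClosed.isIntegral_iff.mp hn2
  have hab : a * b = 1 := by
    apply IsFractionRing.injective A K
    rw [map_mul, ha, hb, ← map_mul, hone, map_one, map_one]
  have hdisc : Algebra.discr K pb.basis =
      algebraMap A K ((-1) ^ (Module.finrank K (IntermediateField.adjoin K {y}) *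
        (Module.finrank K (IntermediateField.adjoin K {y}) - 1) / 2) * a) := by
    rw [Algebra.discr_powerBasis_eq_norm, map_mul, map_pow, map_neg, map_one, ha, hw, hP,
      Polynomial.derivative_map, Polynomial.aeval_map_algebraMap]
  rw [hdisc, algebraMap_smul] at hmem
  obtain ⟨e, he⟩ : ∃ e : ℕ, e = (Module.finrank K (IntermediateField.adjoin K {y}) *
        (Module.finrank K (IntermediateField.adjoin K {y}) - 1) / 2) := ⟨_, rfl⟩
  rw [← he] at hmem
  have hmem2 := Subalgebra.smul_mem _ hmem (b * (-1) ^ e)
  have hcalc : b * (-1) ^ e * ((-1) ^ e * a) = 1 := by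
    have h2 : ((-1 : A)) ^ e * (-1) ^ e = 1 := by
      rw [← mul_pow, neg_one_mul, neg_neg, one_pow]
    calc b * (-1) ^ e * ((-1) ^ e * a) = ((-1 : A) ^ e * (-1) ^ e) * (a * b) := by ring
      _ = 1 := by rw [h2, hab, one_mul]
  rw [smul_smul, hcalc, one_smul] at hmem2
  have h3 : IsScalarTower.toAlgHom A (IntermediateField.adjoin K {y}) L ⟨z, hz⟩ ∈
      (Algebra.adjoin A {pb.gen}).map
        (IsScalarTower.toAlgHom A (IntermediateField.adjoin K {y}) L) :=
    Subalgebra.mem_map.mpr ⟨_, hmem2, rfl⟩
  rw [AlgHom.map_adjoin, Set.image_singleton] at h3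
  have h4 : IsScalarTower.toAlgHom A (IntermediateField.adjoin K {y}) L pb.gen = y := hgL
  rw [h4] at h3
  exact h3

end Pool.Agent.SB.SE
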