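import Pool.Agent.Helper6.SE.KDed
import Pool.Agent.Helper6.SE.KAbs

/-!
# SB-E-20: elements of `k2(x, y)` integral over `k[x]` are in `BK`
PROOF.  `A = xring k k2 x c = Algebra.adjoin k G` (`G` the generating set), `K = IntermediateField.adjoin k G` is its fraction field (`open scoped` instance `IsFractionRing (Algebra.adjoin F S) (IntermediateField.adjoin F S)` in Mathlib `FieldTheory/IntermediateField/Adjoin/Algebra.lean`), `L = Ω`, `u = (x - c 0)(x - c 2)/(x - c 1)`, a unit
of `A`, `y^l = u`, `l` is a unit of `k`.  `EK k k2 x y ≤ (adjoin K {y}).restrictScalars k`.  `z` is integral over `A ⊇ k[x]`.  `mem_adjoin_root`: `z ∈ Algebra.adjoin A {y} ⊆ BK`.  `A` is integrally closed by `xring_dedekind`.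
-/

set_option autoImplicit false

open MvPolynomial IntermediateField NumberField IsDedekindDomain
open scoped IntermediateField.algebraAdjoinAdjoin

namespace Pool.Agent.SB.SE

variable (k : Type) [Field k] [CharZero k] {Ω : Type} [Field Ω] [Algebra k Ω]

theorem mem_BK (l : ℕ) (hl : 0 < l) (k2 : IntermediateField k (kbar k Ω))
    (c : Fin 3 → kbar k Ω) (hc : ∀ i, c i ∈ k2) (x y : Ω) (hx : Transcendental k x)
    (hy : y ^ l * (x - (c 1 : Ω)) = (x - (c 0 : Ω)) * (x - (c 2 : Ω))) (z : Ω)
    (hz : z ∈ EK k k2 x y) (hz' : IsIntegral (Algebra.adjoin k ({x} : Set Ω)) z) :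
    z ∈ BK k k2 x y c := by
  obtain ⟨G, hG⟩ : ∃ G : Set Ω, G = ({z | ∃ a ∈ k2, z = (a : Ω)} ∪ {x} ∪
      {z | ∃ i, z = (x - (c i : Ω))⁻¹}) := ⟨_, rfl⟩
  have hxr : xring k k2 x c = Algebra.adjoin k G := by rw [hG]; rfl
  have hded : IsDedekindDomain (Algebra.adjoin k G) := by
    rw [← hxr]
    exact xring_dedekind k k2 c hc x hx
  have hic : IsIntegrallyClosed (Algebra.adjoin k G) := inferInstance
  have hchK : CharZero (IntermediateField.adjoin k G) :=
    charZero_of_injective_algebraMap (algebraMap k (IntermediateField.adjoin k G)).injective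
  have hne : ∀ i, x - (c i : Ω) ≠ 0 := by
    intro i h0
    apply hx
    rw [sub_eq_zero.mp h0]
    exact (mem_algebraicClosure_iff).mp (c i).2
  have hxG : x ∈ Algebra.adjoin k G := Algebra.subset_adjoin (by rw [hG]; left; right; rfl)
  have haG : ∀ a ∈ k2, (a : Ω) ∈ Algebra.adjoin k G := fun a ha =>
    Algebra.subset_adjoin (by rw [hG]; left; left; exact ⟨a, ha, rfl⟩)
  have hinvG : ∀ i, (x - (c i : Ω))⁻¹ ∈ Algebra.adjoin k G := fun i =>
    Algebra.subset_adjoin (by rw [hG]; right; exact ⟨i, rfl⟩)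
  have hsub : ∀ i, x - (c i : Ω) ∈ Algebra.adjoin k G := fun i => sub_mem hxG (haG _ (hc i))
  obtain ⟨u, hu⟩ : ∃ u : Algebra.adjoin k G,
      (u : Ω) = (x - (c 0 : Ω)) * (x - (c 2 : Ω)) * (x - (c 1 : Ω))⁻¹ :=
    ⟨⟨_, mul_mem (mul_mem (hsub 0) (hsub 2)) (hinvG 1)⟩, rfl⟩
  obtain ⟨v, hv⟩ : ∃ v : Algebra.adjoin k G,
      (v : Ω) = (x - (c 0 : Ω))⁻¹ * (x - (c 2 : Ω))⁻¹ * (x - (c 1 : Ω)) :=
    ⟨⟨_, mul_mem (mul_mem (hinvG 0) (hinvG 2)) (hsub 1)⟩, rfl⟩
  have huv : u * v = 1 := by
    apply Subtype.ext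
    change (u : Ω) * (v : Ω) = 1
    rw [hu, hv]
    have h0 := hne 0
    have h1 := hne 1
    have h2 := hne 2
    field_simp
  have huu : IsUnit u := IsUnit.of_mul_eq_one v huv
  have hlu : IsUnit ((l : ℕ) : Algebra.adjoin k G) := by
    have h1 : IsUnit ((l : ℕ) : k) := (Nat.cast_ne_zero.mpr hl.ne').isUnit
    have h2 := h1.map (algebraMap k (Algebra.adjoin k G))
    rwa [map_natCast] at h2
  have hyu : y ^ l = algebraMap (Algebra.adjoin k G) Ω u := by
    change y ^ l = (u : Ω)
    rw [hu, ← hy, mul_assoc, mul_inv_cancel₀ (hne 1), mul_one]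
  have hzK : z ∈ IntermediateField.adjoin (IntermediateField.adjoin k G) {y} := by
    have hle : EK k k2 x y ≤
        (IntermediateField.adjoin (IntermediateField.adjoin k G) {y}).restrictScalars k := by
      unfold EK
      rw [IntermediateField.adjoin_le_iff]
      have hbase : ∀ w ∈ G, w ∈ IntermediateField.adjoin (IntermediateField.adjoin k G) {y} := by
        intro w hw
        exact (IntermediateField.adjoin (IntermediateField.adjoin k G) {y}).algebraMap_mem
          ⟨w, IntermediateField.subset_adjoin k G hw⟩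
      rintro w (⟨a, ha, rfl⟩ | hw)
      · exact hbase _ (by rw [hG]; left; left; exact ⟨a, ha, rfl⟩)
      · rcases hw with rfl | hw
        · exact hbase _ (by rw [hG]; left; right; rfl)
        · rw [Set.mem_singleton_iff.mp hw]
          exact IntermediateField.mem_adjoin_simple_self _ y
    exact hle hz
  have hle : Algebra.adjoin k ({x} : Set Ω) ≤ Algebra.adjoin k G :=
    Algebra.adjoin_le (Set.singleton_subset_iff.mpr hxG)
  have hzA : IsIntegral (Algebra.adjoin k G) z := by
    obtain ⟨p, hp, hpz⟩ := hz'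
    refine ⟨p.map (Subalgebra.inclusion hle).toRingHom, hp.map _, ?_⟩
    rw [Polynomial.eval₂_map]
    exact hpz
  have hmain := mem_adjoin_root (A := Algebra.adjoin k G) (K := IntermediateField.adjoin k G)
    (L := Ω) l hl hlu u huu y hyu z hzK hzA
  have hABK : ∀ a : Algebra.adjoin k G, (a : Ω) ∈ BK k k2 x y c := by
    intro a
    unfold BK
    rw [hxr]
    exact Algebra.subset_adjoin (Or.inl a.2)
  clear hz hz' hzK hzA
  induction hmain using Algebra.adjoin_induction with
  | mem w hw =>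
    rw [Set.mem_singleton_iff.mp hw]
    exact Algebra.subset_adjoin (Or.inr rfl)
  | algebraMap a => exact hABK a
  | add a b _ _ ha hb => exact add_mem ha hb
  | mul a b _ _ ha hb => exact mul_mem ha hb

end Pool.Agent.SB.SE
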