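import Pool.Agent.Helper6.SE.KDefs

/-!
# SB-E-17: finitely many elements of `W(x, y)` lie in `k2(x, y)` for a finite extension `k2`
PROOF.  Let `k_a = k1 ⊔ k⟮a⟯` etc.  The union of the fields `EK k k2 x y` over the finite `k2 ≥ k1` is a field (directed union: `k2 ⊔ k2'` is finite, `IntermediateField.finiteDimensional_sup`; `EK` is monotone in `k2`) containing the generators of `EW k x y`: use `IntermediateField.adjoin_induction` for one element,
then induction on the finite set.
-/

set_option autoImplicit false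

open MvPolynomial IntermediateField NumberField IsDedekindDomain

namespace Pool.Agent.SB.SE

variable (k : Type) [Field k] {Ω : Type} [Field Ω] [Algebra k Ω]

theorem EK_mono {k1 k2 : IntermediateField k (kbar k Ω)} (h : k1 ≤ k2) (x y : Ω) :
    EK k k1 x y ≤ EK k k2 x y := by
  unfold EK
  apply adjoin.mono
  apply Set.union_subset_union_left
  rintro z ⟨a, ha, rfl⟩
  exact ⟨a, h ha, rfl⟩

private theorem KLevel_one (k1 : IntermediateField k (kbar k Ω)) [FiniteDimensional k k1] (x y : Ω)
    (z : Ω) (hz : z ∈ EW k x y) :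
    ∃ k2 : IntermediateField k (kbar k Ω), FiniteDimensional k k2 ∧ k1 ≤ k2 ∧ z ∈ EK k k2 x y := by
  have hsup : ∀ k2 k3 : IntermediateField k (kbar k Ω), FiniteDimensional k k2 →
      FiniteDimensional k k3 → FiniteDimensional k (k2 ⊔ k3 : IntermediateField k (kbar k Ω)) := by
    intro k2 k3 h2 h3
    exact IntermediateField.finiteDimensional_sup k2 k3
  unfold EW at hz
  induction hz using adjoin_induction with
  | mem z hz =>
    rcases hz with ⟨a, rfl⟩ | hz
    · have ha : IsIntegral k a := (Algebra.IsAlgebraic.isAlgebraic (R := k) a).isIntegral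
      have hfd : FiniteDimensional k (adjoin k {a} : IntermediateField k (kbar k Ω)) :=
        adjoin.finiteDimensional ha
      refine ⟨k1 ⊔ adjoin k {a}, hsup _ _ inferInstance hfd, le_sup_left, ?_⟩
      unfold EK
      apply subset_adjoin
      left
      exact ⟨a, (le_sup_right : adjoin k {a} ≤ k1 ⊔ adjoin k {a}) (mem_adjoin_simple_self k a), rfl⟩
    · refine ⟨k1, inferInstance, le_rfl, ?_⟩
      unfold EK
      apply subset_adjoin
      right
      exact hz
  | algebraMap r => exact ⟨k1, inferInstance, le_rfl, (EK k k1 x y).algebraMap_mem r⟩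
  | add z w _ _ hz hw =>
    obtain ⟨k2, h2, h2', h2''⟩ := hz
    obtain ⟨k3, h3, h3', h3''⟩ := hw
    exact ⟨k2 ⊔ k3, hsup k2 k3 h2 h3, h2'.trans le_sup_left,
      add_mem (EK_mono k le_sup_left x y h2'') (EK_mono k le_sup_right x y h3'')⟩
  | inv z _ hz =>
    obtain ⟨k2, h2, h2', h2''⟩ := hz
    exact ⟨k2, h2, h2', inv_mem h2''⟩
  | mul z w _ _ hz hw =>
    obtain ⟨k2, h2, h2', h2''⟩ := hz
    obtain ⟨k3, h3, h3', h3''⟩ := hw
    exact ⟨k2 ⊔ k3, hsup k2 k3 h2 h3, h2'.trans le_sup_left,
      mul_mem (EK_mono k le_sup_left x y h2'') (EK_mono k le_sup_right x y h3'')⟩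

theorem exists_level (k1 : IntermediateField k (kbar k Ω)) [FiniteDimensional k k1] (x y : Ω)
    (F : Finset Ω) (hF : ∀ z ∈ F, z ∈ EW k x y) :
    ∃ k2 : IntermediateField k (kbar k Ω), FiniteDimensional k k2 ∧ k1 ≤ k2 ∧
      ∀ z ∈ F, z ∈ EK k k2 x y := by
  classical
  induction F using Finset.induction_on with
  | empty => exact ⟨k1, inferInstance, le_rfl, by simp⟩
  | insert a F _ ih =>
    obtain ⟨k2, h2, h2', h2''⟩ := ih (fun z hz => hF z (Finset.mem_insert_of_mem hz))
    obtain ⟨k3, h3, h3', h3''⟩ := KLevel_one k k2 x y a (hF a (Finset.mem_insert_self _ _))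
    refine ⟨k3, h3, h2'.trans h3', fun z hz => ?_⟩
    rcases Finset.mem_insert.1 hz with rfl | hz
    · exact h3''
    · exact EK_mono k h3' x y (h2'' z hz)

end Pool.Agent.SB.SE
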