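import Mathlib

/-!
# SB-E-21: derivations and a relative `N`-th root of an invertible ideal
PROOF of `deriv_zero`.  Write `s_m = s m`.  Apply `D` to `p l n * s m = p l m * s n` and `D (p l n) = 0`: (a) `p l n • D s_m = p l m • D s_n`.  `h1` with `m = l`: (b) `p l n * s_l = p l l * s_n`.  Multiply (a) by `s_l` and sum over `l`, using (b) and `∑ p l l = 1`: (c) `s_n • D s_m = s_m • D s_n`.
`D (s_m ^ N) = N s_m^(N-1) • D s_m = 0` and `N` is a unit: (d) `s_m^(N-1) • D s_m = 0`.  So `s_n^N • D s_m = s_n^(N-1) s_n • D s_m = s_n^(N-1) s_m • D s_n = 0` for all `n, m` (`N > 0`; if `N = 0` then `N` is not a unit unless `S = 0`).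
The `p l l` generate the unit ideal, so do the `p l l ^ N` (`Ideal.span_pow_eq_top`), and `p l l ^ N = e l * s l ^ N`; so `1 = ∑ a_l s_l^N` and `D s_m = 0`.
`deriv_root`: `l s^(l-1) • D s = D u = 0`, `l` and `s` are units.  `deriv_alg`: `P = minpoly k a`, `0 = D (P(a)) = P'(a) • D a` (`D` vanishes on `k`), `P'(a) ≠ 0` (characteristic `0`) and `P'(a)⁻¹ ∈ S` by hypothesis.
`ker_adjoin`: the elements killed by `D` form a subring.
-/

set_option autoImplicit false

namespace Pool.Agent.SB.SE

theorem deriv_zero {S M : Type} [CommRing S] [AddCommGroup M] [Module S M]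
    (D : Derivation ℤ S M) {ι : Type} [Fintype ι] (N : ℕ) (hN : IsUnit (N : S)) (s : ι → S)
    (p : ι → ι → S) (e : ι → S) (h1 : ∀ l m n, p l n * s m = p l m * s n)
    (h3 : ∑ l, p l l = 1) (h4 : ∀ m, D (s m ^ N) = 0) (hp : ∀ l n, D (p l n) = 0)
    (h5 : ∀ l, p l l ^ N = e l * s l ^ N) (m : ι) : D (s m) = 0 := by
  classical
  rcases Nat.eq_zero_or_pos N with hN0 | hNpos
  · subst hN0
    have h0 : IsUnit (0 : S) := by
      rw [← Nat.cast_zero]
      exact hN
    have h01 : (0 : S) = 1 := isUnit_zero_iff.1 h0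
    rw [← one_smul S (D (s m)), ← h01, zero_smul]
  have ha : ∀ l m n, p l n • D (s m) = p l m • D (s n) := by
    intro l m n
    have h := congrArg D (h1 l m n)
    rw [D.leibniz, D.leibniz, hp, hp, smul_zero, smul_zero, add_zero, add_zero] at h
    exact h
  have hc : ∀ m n, s n • D (s m) = s m • D (s n) := by
    intro m n
    have h : ∀ l, (p l l * s n) • D (s m) = (p l l * s m) • D (s n) := by
      intro l
      rw [← h1 l l n, ← h1 l l m, mul_comm (p l n), mul_comm (p l m), mul_smul, mul_smul, ha l m n]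
    calc s n • D (s m) = (∑ l, p l l * s n) • D (s m) := by rw [← Finset.sum_mul, h3, one_mul]
      _ = ∑ l, (p l l * s n) • D (s m) := Finset.sum_smul
      _ = ∑ l, (p l l * s m) • D (s n) := Finset.sum_congr rfl fun l _ => h l
      _ = (∑ l, p l l * s m) • D (s n) := Finset.sum_smul.symm
      _ = s m • D (s n) := by rw [← Finset.sum_mul, h3, one_mul]
  have hd : ∀ n, s n ^ (N - 1) • D (s n) = 0 := by
    intro n
    have h := h4 n
    rw [D.leibniz_pow, ← Nat.cast_smul_eq_nsmul S] at h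
    exact (hN.smul_eq_zero).1 h
  have hk : ∀ l, s l ^ N • D (s m) = 0 := by
    intro l
    have e1 : s l ^ N = s l ^ (N - 1) * s l := by
      rw [← pow_succ]
      congr 1
      omega
    rw [e1, mul_smul, hc m l, smul_comm, hd, smul_zero]
  have hspan : Ideal.span (Set.range fun l => p l l) = ⊤ := by
    rw [Ideal.eq_top_iff_one, ← h3]
    exact Ideal.sum_mem _ fun l _ => Ideal.subset_span ⟨l, rfl⟩
  have hspan2 := Ideal.span_pow_eq_top _ hspan N
  have hle : Ideal.span ((fun x => x ^ N) '' (Set.range fun l => p l l)) ≤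
      LinearMap.ker (LinearMap.toSpanSingleton S M (D (s m))) := by
    rw [Ideal.span_le]
    rintro _ ⟨_, ⟨l, rfl⟩, rfl⟩
    change (LinearMap.toSpanSingleton S M (D (s m))) (p l l ^ N) = 0
    rw [LinearMap.toSpanSingleton_apply, h5, mul_smul, hk, smul_zero]
  rw [hspan2] at hle
  have h1mem := hle (Submodule.mem_top : (1 : S) ∈ (⊤ : Ideal S))
  rw [LinearMap.mem_ker, LinearMap.toSpanSingleton_apply, one_smul] at h1mem
  exact h1mem

theorem deriv_root {S M : Type} [CommRing S] [AddCommGroup M] [Module S M]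
    (D : Derivation ℤ S M) (l : ℕ) (hl : IsUnit (l : S)) (s : S) (hs : IsUnit s)
    (h : D (s ^ l) = 0) : D s = 0 := by
  rw [D.leibniz_pow, ← Nat.cast_smul_eq_nsmul S] at h
  exact ((hs.pow (l - 1)).smul_eq_zero).1 ((hl.smul_eq_zero).1 h)

private theorem deriv_aeval {k S M : Type} [Field k] [CommRing S] [Algebra k S] [AddCommGroup M]
    [Module S M] (D : Derivation ℤ S M) (hD : ∀ a : k, D (algebraMap k S a) = 0) (b : S)
    (P : Polynomial k) :
    D (Polynomial.aeval b P) = Polynomial.aeval b (Polynomial.derivative P) • D b := by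
  induction P using Polynomial.induction_on' with
  | add p q hp hq =>
    rw [map_add, map_add, hp, hq, Polynomial.derivative_add, map_add, add_smul]
  | monomial n c =>
    rw [Polynomial.aeval_monomial, Polynomial.derivative_monomial, Polynomial.aeval_monomial,
      D.leibniz, hD, smul_zero, add_zero, D.leibniz_pow, map_mul, map_natCast,
      ← Nat.cast_smul_eq_nsmul S, smul_smul, smul_smul]

theorem deriv_alg {k Ω : Type} [Field k] [CharZero k] [Field Ω] [Algebra k Ω]
    {S : Subalgebra k Ω} {M : Type} [AddCommGroup M] [Module S M] (D : Derivation ℤ S M)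
    (hD : ∀ a : k, D (algebraMap k S a) = 0) (a : Ω) (ha : IsAlgebraic k a)
    (h : ∀ z ∈ IntermediateField.adjoin k ({a} : Set Ω), z ∈ S) (haS : a ∈ S) :
    D ⟨a, haS⟩ = 0 := by
  obtain ⟨b, hb⟩ : ∃ b : S, b = ⟨a, haS⟩ := ⟨_, rfl⟩
  have hba : (b : Ω) = a := by rw [hb]
  rw [← hb]
  have hcoe : ∀ P : Polynomial k, ((Polynomial.aeval b P : S) : Ω) = Polynomial.aeval a P := by
    intro P
    have h1 := Polynomial.aeval_algHom_apply S.val b P
    rw [← hba]
    exact h1.symm
  have h0 : Polynomial.aeval b (minpoly k a) = 0 := by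
    apply Subtype.ext
    rw [hcoe, minpoly.aeval]
    rfl
  have h1 := deriv_aeval D hD b (minpoly k a)
  rw [h0, map_zero] at h1
  have hsep : (minpoly k a).Separable := (minpoly.irreducible ha.isIntegral).separable
  have hne : Polynomial.aeval a (Polynomial.derivative (minpoly k a)) ≠ 0 :=
    hsep.aeval_derivative_ne_zero (minpoly.aeval k a)
  have hin : (Polynomial.aeval a (Polynomial.derivative (minpoly k a)))⁻¹ ∈ S := by
    apply h
    apply inv_mem
    have ha1 : a ∈ IntermediateField.adjoin k ({a} : Set Ω) :=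
      IntermediateField.mem_adjoin_simple_self k a
    obtain ⟨g, hg⟩ : ∃ g : IntermediateField.adjoin k ({a} : Set Ω), g = ⟨a, ha1⟩ := ⟨_, rfl⟩
    have h2 := Polynomial.aeval_algHom_apply (IntermediateField.adjoin k ({a} : Set Ω)).val g
      (Polynomial.derivative (minpoly k a))
    have h3 : (IntermediateField.adjoin k ({a} : Set Ω)).val g = a := by rw [hg]; rfl
    rw [h3] at h2
    rw [h2]
    exact Subtype.property _
  obtain ⟨c, hc⟩ : ∃ c : S, (c : Ω) =
      (Polynomial.aeval a (Polynomial.derivative (minpoly k a)))⁻¹ := ⟨⟨_, hin⟩, rfl⟩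
  have hc1 : c * Polynomial.aeval b (Polynomial.derivative (minpoly k a)) = 1 := by
    apply Subtype.ext
    change (c : Ω) * ((Polynomial.aeval b (Polynomial.derivative (minpoly k a)) : S) : Ω) = 1
    rw [hcoe, hc, inv_mul_cancel₀ hne]
  rw [← one_smul S (D b), ← hc1, mul_smul, ← h1, smul_zero]

theorem ker_adjoin {k Ω : Type} [Field k] [Field Ω] [Algebra k Ω]
    {S : Subalgebra k Ω} {M : Type} [AddCommGroup M] [Module S M] (D : Derivation ℤ S M)
    (hD : ∀ a : k, D (algebraMap k S a) = 0) (G : Set Ω) (hG : ∀ z ∈ G, ∀ h : z ∈ S, D ⟨z, h⟩ = 0)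
    (hGS : G ⊆ S) (z : Ω) (hz : z ∈ Algebra.adjoin k G) (hzS : z ∈ S) : D ⟨z, hzS⟩ = 0 := by
  have hle : ∀ x ∈ Algebra.adjoin k G, x ∈ S := fun x hx => Algebra.adjoin_le hGS hx
  have key : ∀ h : z ∈ S, D ⟨z, h⟩ = 0 := by
    induction hz using Algebra.adjoin_induction with
    | mem x hx => exact fun h => hG x hx h
    | algebraMap r => exact fun h => hD r
    | add x y hx hy ihx ihy =>
      intro h
      have e : (⟨x + y, h⟩ : S) = ⟨x, hle x hx⟩ + ⟨y, hle y hy⟩ := rfl
      rw [e, map_add, ihx (hle x hx) _, ihy (hle y hy) _, add_zero]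
    | mul x y hx hy ihx ihy =>
      intro h
      have e : (⟨x * y, h⟩ : S) = ⟨x, hle x hx⟩ * ⟨y, hle y hy⟩ := rfl
      rw [e, D.leibniz, ihx (hle x hx) _, ihy (hle y hy) _, smul_zero, smul_zero, add_zero]
  exact key hzS

end Pool.Agent.SB.SE
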