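import Pool.Agent.Helper6.SE.EDefs

/-!
# SB-E-22: finite unramified extensions of Dedekind subrings of a field
PROOF.  `S` as an `A`-algebra (inclusion): finite module (generated as an algebra by the finitely many integral elements of `G`), torsion free, so flat over the Dedekind domain `A` (instance in Mathlib `RingTheory/Flat/TorsionFree.lean`: `[IsDedekindDomain R] [IsTorsionFree R M] : Flat R M`), finitely presented (`A` Noetherian).
`KaehlerDifferential.D A S` restricted to `ℤ` vanishes on `A`, so on `G` by `hun`, so on all of `S` (its kernel is a subring and contains `A` and `G`, and `S = A ⊔ adjoin G`); `KaehlerDifferential.span_range_derivation`: the module of differentials is `0`: `Algebra.FormallyUnramified A S`.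
So étale: `Algebra.Etale.of_formallyUnramified_of_flat` (Mathlib `RingTheory/Smooth/Fiber.lean`).  Then `S` itself with the inclusion `S → Ω` shows `S ⊆ etSet k A`.
-/

set_option autoImplicit false

open MvPolynomial IntermediateField NumberField IsDedekindDomain

namespace Pool.Agent.SB.SE

variable (k : Type) [Field k] {Ω : Type} [Field Ω] [Algebra k Ω]

theorem subset_etSet_of_unram {A S : Subalgebra k Ω} (h : A ≤ S) (hA : IsDedekindDomain A)
    (G : Finset Ω) (hG : ∀ z ∈ G, IsIntegral A z)
    (hS : S = A ⊔ Algebra.adjoin k (G : Set Ω))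
    (hun : ∀ (M : Type) [AddCommGroup M] [Module S M] (D : Derivation ℤ S M),
      (∀ a (ha : a ∈ A), D ⟨a, h ha⟩ = 0) → ∀ z ∈ G, ∀ hz : z ∈ S, D ⟨z, hz⟩ = 0) :
    (S : Set Ω) ⊆ etSet k A := by
  let _ : Algebra A S := (Subalgebra.inclusion h).toRingHom.toAlgebra
  have hsm : ∀ (a : A) (s : S), ((a • s : S) : Ω) = (a : Ω) * (s : Ω) := fun a s => rfl
  have htow : IsScalarTower A S Ω := IsScalarTower.of_algebraMap_eq fun x => rfl
  -- `S` is `A[G]`
  have hST : ∀ z, z ∈ S ↔ z ∈ Algebra.adjoin A (G : Set Ω) := by
    intro z
    constructor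
    · intro hz
      have hle : S ≤ (Algebra.adjoin A (G : Set Ω)).restrictScalars k := by
        rw [hS]
        refine sup_le ?_ ?_
        · intro a ha
          exact (Algebra.adjoin A (G : Set Ω)).algebraMap_mem ⟨a, ha⟩
        · refine Algebra.adjoin_le ?_
          intro g hg
          exact Algebra.subset_adjoin hg
      exact hle hz
    · intro hz
      induction hz using Algebra.adjoin_induction with
      | mem x hx =>
        rw [hS]
        exact (le_sup_right : Algebra.adjoin k (G : Set Ω) ≤ A ⊔ Algebra.adjoin k (G : Set Ω))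
          (Algebra.subset_adjoin hx)
      | algebraMap r => exact h r.2
      | add x y _ _ ihx ihy => exact add_mem ihx ihy
      | mul x y _ _ ihx ihy => exact mul_mem ihx ihy
  -- finite
  have hfg : (Algebra.adjoin A (G : Set Ω)).toSubmodule.FG :=
    fg_adjoin_of_finite G.finite_toSet hG
  have hfin0 : Module.Finite A (Algebra.adjoin A (G : Set Ω)).toSubmodule :=
    Module.Finite.iff_fg.2 hfg
  have hfin : Module.Finite A S := by
    let f : (Algebra.adjoin A (G : Set Ω)).toSubmodule →ₗ[A] S :=
      { toFun := fun z => ⟨z.1, (hST z.1).2 z.2⟩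
        map_add' := fun _ _ => rfl
        map_smul' := fun _ _ => rfl }
    refine Module.Finite.of_surjective f ?_
    intro s
    exact ⟨⟨s.1, (hST s.1).1 s.2⟩, rfl⟩
  have hnoeth : IsNoetherianRing A := inferInstance
  have htf : Module.IsTorsionFree A S := Module.IsTorsionFree.of_smul_eq_zero fun a s has => by
    have h1 := congrArg (fun t : S => (t : Ω)) has
    have h2 : (a : Ω) * (s : Ω) = 0 := h1
    rcases mul_eq_zero.1 h2 with h3 | h3
    · exact Or.inl (Subtype.ext h3)
    · exact Or.inr (Subtype.ext h3)
  have hflat : Module.Flat A S := inferInstance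
  have hft : Algebra.FiniteType A S := inferInstance
  have hfp : Algebra.FinitePresentation A S := Algebra.FinitePresentation.of_finiteType.1 hft
  have hD0 : ∀ s : S, KaehlerDifferential.D A S s = 0 := by
    have key : ∀ z ∈ Algebra.adjoin A (G : Set Ω), ∀ hz : z ∈ S,
        KaehlerDifferential.D A S ⟨z, hz⟩ = 0 := by
      intro z hz
      induction hz using Algebra.adjoin_induction with
      | mem x hx =>
        intro hz
        refine hun _ ((KaehlerDifferential.D A S).restrictScalars ℤ) ?_ x hx hz
        intro a ha
        exact (KaehlerDifferential.D A S).map_algebraMap ⟨a, ha⟩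
      | algebraMap r => exact fun _ => (KaehlerDifferential.D A S).map_algebraMap r
      | add x y hx hy ihx ihy =>
        intro hz
        have e : (⟨x + y, hz⟩ : S) = ⟨x, (hST x).2 hx⟩ + ⟨y, (hST y).2 hy⟩ := rfl
        rw [e, map_add, ihx, ihy, add_zero]
      | mul x y hx hy ihx ihy =>
        intro hz
        have e : (⟨x * y, hz⟩ : S) = ⟨x, (hST x).2 hx⟩ * ⟨y, (hST y).2 hy⟩ := rfl
        rw [e, Derivation.leibniz, ihx, ihy, smul_zero, smul_zero, add_zero]
    exact fun s => key s.1 ((hST s.1).1 s.2) s.2
  have hun' : Algebra.FormallyUnramified A S := by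
    constructor
    have hspan := KaehlerDifferential.span_range_derivation A S
    have h0 : ∀ w : KaehlerDifferential A S, w = 0 := by
      intro w
      have hw : w ∈ Submodule.span S (Set.range (KaehlerDifferential.D A S)) := by
        rw [hspan]
        trivial
      have hle : Submodule.span S (Set.range (KaehlerDifferential.D A S)) ≤ ⊥ := by
        rw [Submodule.span_le]
        rintro _ ⟨s, rfl⟩
        rw [hD0 s]
        exact Submodule.zero_mem _
      exact (Submodule.mem_bot S).1 (hle hw)
    exact ⟨fun a b => by rw [h0 a, h0 b]⟩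
  have het : Algebra.Etale A S := Algebra.Etale.of_formallyUnramified_of_flat
  intro θ hθ
  exact ⟨S, inferInstance, inferInstance, hfin, het, IsScalarTower.toAlgHom A S Ω, ⟨θ, hθ⟩, rfl⟩

end Pool.Agent.SB.SE
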