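import Pool.Agent.Helper6.SE.KDed
import Pool.Agent.Helper6.SE.KDer
import Pool.Agent.Helper6.SE.KFlat

/-!
# SB-E-24: `k1[x, ..][k2, y, b_m θ]` is finite étale over `k1[x, ..]`
PROOF.  `A = xring k k1 x c` (Dedekind: `xring_dedekind`).  `G` = (the images in `Ω` of a `k`-basis of `k2`) `∪ {y} ∪ {b m * θ}`, finite.  `S = A ⊔ Algebra.adjoin k G`.  `BK k k2 x y c ≤ S` (`k2 ⊆ S`; `x, (x - c i)⁻¹ ∈ A`; `y ∈ G`).
Integrality over `A`: elements of `k2` (algebraic over `k`), `y` (`y^l = u = (x - c 0)(x - c 2)(x - c 1)⁻¹ ∈ A`), hence `BK` is integral over `A`; `(b m * θ)^N ∈ BK` by `h3`, so `b m * θ` is integral over `A`.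
`hun` of `subset_etSet_of_unram`: let `D` vanish on `A`.  `D` vanishes on `k2` (`deriv_alg`), on `y` (`deriv_root`; `y` is a unit of `S`: `y⁻¹ = y^(l-1) u⁻¹`, `u⁻¹ = (x - c 1)(x - c 0)⁻¹(x - c 2)⁻¹ ∈ A`; `x ≠ c i` as `x` is transcendental), so on `BK` (`ker_adjoin`), and on `b m * θ` by `deriv_zero` with `s m = b m θ`, `p l n = j l b n`,
`e l = j l ^ N (θ^N)⁻¹`, all in `BK ≤ S`.
-/

set_option autoImplicit false

open MvPolynomial IntermediateField NumberField IsDedekindDomain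

namespace Pool.Agent.SB.SE

variable (k : Type) [Field k] [CharZero k] {Ω : Type} [Field Ω] [Algebra k Ω]

theorem frac_mem (l : ℕ) (hl : 0 < l) (k1 k2 : IntermediateField k (kbar k Ω)) (h12 : k1 ≤ k2)
    [FiniteDimensional k k2] (c : Fin 3 → kbar k Ω) (hc : ∀ i, c i ∈ k1) (x y : Ω)
    (hx : Transcendental k x)
    (hy : y ^ l * (x - (c 1 : Ω)) = (x - (c 0 : Ω)) * (x - (c 2 : Ω))) (N : ℕ) (hN : 0 < N)
    (r : ℕ) (j b : Fin r → Ω) (θ : Ω) (hθ : θ ≠ 0)
    (h1 : ∀ m n, j m * b n ∈ BK k k2 x y c) (h2 : ∑ m, j m * b m = 1)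
    (h3 : ∀ m, b m ^ N * θ ^ N ∈ BK k k2 x y c)
    (h4 : ∀ m, j m ^ N * (θ ^ N)⁻¹ ∈ BK k k2 x y c) :
    y ∈ etSet k (xring k k1 x c) ∧ ∀ m, b m * θ ∈ etSet k (xring k k1 x c) := by
  classical
  have hA : IsDedekindDomain (xring k k1 x c) := xring_dedekind k k1 c hc x hx
  have hxc : ∀ i, x - (c i : Ω) ≠ 0 := by
    intro i h
    apply hx
    rw [sub_eq_zero.1 h]
    exact mem_algebraicClosure_iff.1 (c i).2
  have hxA : x ∈ xring k k1 x c := Algebra.subset_adjoin (Or.inl (Or.inr rfl))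
  have hk1A : ∀ a ∈ k1, ((a : kbar k Ω) : Ω) ∈ xring k k1 x c := fun a ha =>
    Algebra.subset_adjoin (Or.inl (Or.inl ⟨a, ha, rfl⟩))
  have hinvA : ∀ i, (x - (c i : Ω))⁻¹ ∈ xring k k1 x c := fun i =>
    Algebra.subset_adjoin (Or.inr ⟨i, rfl⟩)
  have hcA : ∀ i, x - (c i : Ω) ∈ xring k k1 x c := fun i => sub_mem hxA (hk1A _ (hc i))
  have hyl : y ^ l = (x - (c 0 : Ω)) * (x - (c 2 : Ω)) * (x - (c 1 : Ω))⁻¹ := by
    rw [← hy, mul_assoc, mul_inv_cancel₀ (hxc 1), mul_one]
  have hylA : y ^ l ∈ xring k k1 x c := by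
    rw [hyl]
    exact mul_mem (mul_mem (hcA 0) (hcA 2)) (hinvA 1)
  have hyl0 : y ^ l ≠ 0 := by
    rw [hyl]
    exact mul_ne_zero (mul_ne_zero (hxc 0) (hxc 2)) (inv_ne_zero (hxc 1))
  have hylA' : (y ^ l)⁻¹ ∈ xring k k1 x c := by
    rw [hyl, mul_inv, mul_inv, inv_inv]
    exact mul_mem (mul_mem (hinvA 0) (hinvA 2)) (hcA 1)
  -- generators
  let bs := Module.finBasis k k2
  let G : Finset Ω := (Finset.univ.image fun i => (((bs i : k2) : kbar k Ω) : Ω)) ∪ {y} ∪
    (Finset.univ.image fun m => b m * θ)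
  let S : Subalgebra k Ω := xring k k1 x c ⊔ Algebra.adjoin k (G : Set Ω)
  have hAS : xring k k1 x c ≤ S := le_sup_left
  have hGS : ∀ z ∈ G, z ∈ S := fun z hz =>
    (le_sup_right : Algebra.adjoin k (G : Set Ω) ≤ S) (Algebra.subset_adjoin hz)
  have hyG : y ∈ G := by simp [G]
  have hbG : ∀ m, b m * θ ∈ G := fun m => by
    simp only [G, Finset.mem_union, Finset.mem_image]
    exact Or.inr ⟨m, Finset.mem_univ _, rfl⟩
  have hbsG : ∀ i, (((bs i : k2) : kbar k Ω) : Ω) ∈ G := fun i => by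
    simp only [G, Finset.mem_union, Finset.mem_image]
    exact Or.inl (Or.inl ⟨i, Finset.mem_univ _, rfl⟩)
  have hk2S : ∀ a ∈ k2, ((a : kbar k Ω) : Ω) ∈ S := by
    intro a ha
    have h5 : (a : kbar k Ω) = (((∑ i, bs.repr ⟨a, ha⟩ i • bs i : k2)) : kbar k Ω) := by
      rw [bs.sum_repr]
    rw [h5]
    have h6 : ((((∑ i, bs.repr ⟨a, ha⟩ i • bs i : k2)) : kbar k Ω) : Ω) =
        ∑ i, bs.repr ⟨a, ha⟩ i • (((bs i : k2) : kbar k Ω) : Ω) := by
      push_cast
      rfl
    rw [h6]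
    exact sum_mem fun i _ => S.smul_mem (hGS _ (hbsG i)) _
  have hX2S : xring k k2 x c ≤ S := by
    refine Algebra.adjoin_le ?_
    rintro z ((⟨a, ha, rfl⟩ | hz) | ⟨i, rfl⟩)
    · exact hk2S a ha
    · rw [Set.mem_singleton_iff] at hz
      rw [hz]; exact hAS hxA
    · exact hAS (hinvA i)
  have hBS : BK k k2 x y c ≤ S := by
    refine Algebra.adjoin_le ?_
    rintro z (hz | hz)
    · exact hX2S hz
    · rw [Set.mem_singleton_iff] at hz
      rw [hz]; exact hGS y hyG
  -- integrality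
  have hint : ∀ z ∈ xring k k1 x c, IsIntegral (xring k k1 x c) z := fun z hz =>
    isIntegral_algebraMap (R := xring k k1 x c) (A := Ω) (x := ⟨z, hz⟩)
  have hintk : ∀ a : kbar k Ω, IsIntegral (xring k k1 x c) (a : Ω) := fun a =>
    (mem_algebraicClosure_iff.1 a.2).isIntegral.tower_top
  have hinty : IsIntegral (xring k k1 x c) y := IsIntegral.of_pow hl (hint _ hylA)
  have hintB : ∀ z ∈ BK k k2 x y c, IsIntegral (xring k k1 x c) z := by
    intro z hz
    have h7 : BK k k2 x y c ≤ (integralClosure (xring k k1 x c) Ω).restrictScalars k := by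
      refine Algebra.adjoin_le ?_
      rintro z (hz | hz)
      · have h8 : xring k k2 x c ≤ (integralClosure (xring k k1 x c) Ω).restrictScalars k := by
          refine Algebra.adjoin_le ?_
          rintro z ((⟨a, ha, rfl⟩ | hz) | ⟨i, rfl⟩)
          · exact hintk a
          · rw [Set.mem_singleton_iff] at hz
            rw [hz]; exact hint _ hxA
          · exact hint _ (hinvA i)
        exact h8 hz
      · rw [Set.mem_singleton_iff] at hz
        rw [hz]; exact hinty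
    exact h7 hz
  have hG : ∀ z ∈ G, IsIntegral (xring k k1 x c) z := by
    intro z hz
    simp only [G, Finset.mem_union, Finset.mem_image, Finset.mem_singleton] at hz
    rcases hz with (⟨i, -, rfl⟩ | rfl) | ⟨m, -, rfl⟩
    · exact hintk _
    · exact hinty
    · refine IsIntegral.of_pow hN ?_
      rw [mul_pow]
      exact hintB _ (h3 m)
  have hmain : (S : Set Ω) ⊆ etSet k (xring k k1 x c) := by
    refine subset_etSet_of_unram k hAS hA G hG rfl ?_
    intro M _ _ D hD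
    have hDk : ∀ a : k, D (algebraMap k S a) = 0 := fun a =>
      hD (algebraMap k Ω a) ((xring k k1 x c).algebraMap_mem a)
    have hDk2 : ∀ a ∈ k2, ∀ h : ((a : kbar k Ω) : Ω) ∈ S, D ⟨_, h⟩ = 0 := by
      intro a ha h
      refine deriv_alg D hDk _ (mem_algebraicClosure_iff.1 a.2) ?_ h
      intro z hz
      have h9 : IntermediateField.adjoin k ({(a : Ω)} : Set Ω) ≤ k2.map (kbar k Ω).val := by
        rw [IntermediateField.adjoin_le_iff]
        intro w hw
        rw [Set.mem_singleton_iff] at hw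
        rw [hw]
        exact ⟨a, ha, rfl⟩
      obtain ⟨a', ha', rfl⟩ := h9 hz
      exact hk2S a' ha'
    have hDX : ∀ z (hz : z ∈ xring k k2 x c), D ⟨z, hX2S hz⟩ = 0 := by
      intro z hz
      refine ker_adjoin D hDk _ ?_ ?_ z hz (hX2S hz)
      · rintro z ((⟨a, ha, rfl⟩ | hz) | ⟨i, rfl⟩) h
        · exact hDk2 a ha h
        · rw [Set.mem_singleton_iff] at hz
          subst hz
          exact hD _ hxA
        · exact hD _ (hinvA i)
      · exact fun z hz => hX2S (Algebra.subset_adjoin hz)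
    have hly : IsUnit ((l : ℕ) : S) := by
      have h10 : IsUnit ((l : ℕ) : k) := (Nat.cast_ne_zero.2 hl.ne').isUnit
      have h11 := h10.map (algebraMap k S)
      rwa [map_natCast] at h11
    have hyS : y ∈ S := hGS y hyG
    have hyu : IsUnit (⟨y, hyS⟩ : S) := by
      refine IsUnit.of_mul_eq_one (⟨y ^ (l - 1) * (y ^ l)⁻¹,
        mul_mem (pow_mem hyS _) (hAS hylA')⟩ : S) (Subtype.ext ?_)
      change y * (y ^ (l - 1) * (y ^ l)⁻¹) = 1
      rw [← mul_assoc, ← pow_succ', Nat.sub_add_cancel hl, mul_inv_cancel₀ hyl0]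
    have hDy : D ⟨y, hyS⟩ = 0 := by
      refine deriv_root D l hly _ hyu ?_
      exact hD _ hylA
    have hDB : ∀ z (hz : z ∈ BK k k2 x y c), D ⟨z, hBS hz⟩ = 0 := by
      intro z hz
      refine ker_adjoin D hDk _ ?_ ?_ z hz (hBS hz)
      · rintro z (hz | hz) h
        · exact hDX z hz
        · rw [Set.mem_singleton_iff] at hz
          subst hz
          exact hDy
      · exact fun z hz => hBS (Algebra.subset_adjoin hz)
    have hNu : IsUnit ((N : ℕ) : S) := by
      have h10 : IsUnit ((N : ℕ) : k) := (Nat.cast_ne_zero.2 hN.ne').isUnit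
      have h11 := h10.map (algebraMap k S)
      rwa [map_natCast] at h11
    have hDb : ∀ m, D ⟨b m * θ, hGS _ (hbG m)⟩ = 0 := by
      intro m
      refine deriv_zero D N hNu (fun m => ⟨b m * θ, hGS _ (hbG m)⟩)
        (fun l' n => ⟨j l' * b n, hBS (h1 l' n)⟩)
        (fun l' => ⟨j l' ^ N * (θ ^ N)⁻¹, hBS (h4 l')⟩) ?_ ?_ ?_ ?_ ?_ m
      · intro l' m n
        apply Subtype.ext
        change j l' * b n * (b m * θ) = j l' * b m * (b n * θ)
        ring
      · apply Subtype.ext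
        rw [AddSubmonoidClass.coe_finsetSum]
        exact h2
      · intro m
        have h12 : ((⟨b m * θ, hGS _ (hbG m)⟩ : S) ^ N) = ⟨b m ^ N * θ ^ N, hBS (h3 m)⟩ :=
          Subtype.ext (mul_pow _ _ _)
        rw [h12]
        exact hDB _ (h3 m)
      · exact fun l' n => hDB _ (h1 l' n)
      · intro l'
        apply Subtype.ext
        change (j l' * b l') ^ N = j l' ^ N * (θ ^ N)⁻¹ * (b l' * θ) ^ N
        rw [mul_pow, mul_pow]
        field_simp
    intro z hz hzS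
    simp only [G, Finset.mem_union, Finset.mem_image, Finset.mem_singleton] at hz
    rcases hz with (⟨i, -, rfl⟩ | rfl) | ⟨m, -, rfl⟩
    · exact hDk2 _ (bs i).2 hzS
    · exact hDy
    · exact hDb m
  exact ⟨hmain (hGS y hyG), fun m => hmain (hGS _ (hbG m))⟩

end Pool.Agent.SB.SE
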