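import Pool.Agent.Helper6.SE.RootMem
import Pool.Agent.Helper6.SE.KLevel
import Pool.Agent.Helper6.SE.KInt
import Pool.Agent.Helper6.SE.KFrac
import Pool.Agent.Helper6.SE.KUnram

/-!
# SB-E-25 (ET9)
PROOF.  `exists_frac`, then `exists_level` for the finite set of all `j m`, `b m`, `α`, `β`.  `mem_BK`: the elements `j m * b n`, `b m ^ N * θ ^ N`, `j m ^ N * (θ ^ N)⁻¹` (`θ ^ N = α / β`) are in `BK k k2 x y c`.  `frac_mem`: `y` and `b m * θ` are in `etSet k A`, `A = xring k k1 x c`.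
So `etField k A = adjoin k (etSet k A)` contains `k2` (`kbar_subset_etSet`), `x` (`x ∈ A`; `A ⊆ etSet k A` by `root_mem_etSet` or trivially `S = A`), `y`, hence `EK k k2 x y`, and `θ = ∑ j m (b m θ)`.
-/

set_option autoImplicit false

open MvPolynomial IntermediateField NumberField IsDedekindDomain

namespace Pool.Agent.SB

variable (k : Type) [Field k] [CharZero k] {Ω : Type} [Field Ω] [Algebra k Ω]

/-- (ET9) the `N`-th root of `α / β` is in `Z` if `(α / β)` is the `N`-th power of an ideal -/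
theorem kummer_mem (ℓ : ℕ) (hℓ : ℓ.Prime) (k1 : IntermediateField k (kbar k Ω))
    [FiniteDimensional k k1] (ζ : kbar k Ω) (hζ : IsPrimitiveRoot ζ ℓ) (hζ1 : ζ ∈ k1)
    (c : Fin 3 → kbar k Ω) (hc : ∀ i, c i ∈ k1) (hc' : Function.Injective c) (x y : Ω)
    (hx : Transcendental k x)
    (hy : y ^ ℓ * (x - (c 1 : Ω)) = (x - (c 0 : Ω)) * (x - (c 2 : Ω))) (N : ℕ) (hN : 0 < N)
    (J : Ideal (OW k x y)) (α β : OW k x y) (hα : α ≠ 0) (hβ : β ≠ 0)
    (hJ : Ideal.span {β} * J ^ N = Ideal.span {α}) (θ : Ω) (hθ : θ ^ N * (β : Ω) = (α : Ω)) :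
    θ ∈ etField k (xring k k1 x c) := by
  classical
  obtain ⟨r, j, b, hj, hb, hjb, hsum, hbN, hjN⟩ := SE.exists_frac k x y N hN J α β hα hβ hJ
  have hα0 : (α : Ω) ≠ 0 := fun h => hα (Subtype.ext h)
  have hβ0 : (β : Ω) ≠ 0 := fun h => hβ (Subtype.ext h)
  have hθ0 : θ ≠ 0 := by
    rintro rfl
    rw [zero_pow hN.ne', zero_mul] at hθ
    exact hα0 hθ.symm
  have hαβ : θ ^ N = (α : Ω) / (β : Ω) := by
    rw [eq_div_iff hβ0, hθ]
  have hβα : (θ ^ N)⁻¹ = (β : Ω) / (α : Ω) := by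
    rw [hαβ, inv_div]
  obtain ⟨k2, hfin, h12, hk2⟩ := SE.exists_level k k1 x y
    (Finset.univ.image j ∪ Finset.univ.image b ∪ {(α : Ω), (β : Ω)}) (by
      intro z hz
      simp only [Finset.mem_union, Finset.mem_image, Finset.mem_univ, true_and,
        Finset.mem_insert, Finset.mem_singleton] at hz
      rcases hz with (⟨m, rfl⟩ | ⟨m, rfl⟩) | rfl | rfl
      · exact hj m
      · exact hb m
      · exact α.2.1
      · exact β.2.1)
  have := hfin
  have hj2 : ∀ m, j m ∈ SE.EK k k2 x y := fun m => hk2 _ (by simp)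
  have hb2 : ∀ m, b m ∈ SE.EK k k2 x y := fun m => hk2 _ (by simp)
  have hα2 : (α : Ω) ∈ SE.EK k k2 x y := hk2 _ (by simp)
  have hβ2 : (β : Ω) ∈ SE.EK k k2 x y := hk2 _ (by simp)
  have hBK : ∀ z, z ∈ SE.EK k k2 x y → z ∈ OW k x y → z ∈ SE.BK k k2 x y c := fun z hz hz' =>
    SE.mem_BK k ℓ hℓ.pos k2 c (fun i => h12 (hc i)) x y hx hy z hz hz'.2
  obtain ⟨hy', hbθ⟩ := SE.frac_mem k ℓ hℓ.pos k1 k2 h12 c hc x y hx hy N hN r j b θ hθ0
    (fun m n => hBK _ (mul_mem (hj2 m) (hb2 n)) (hjb m n)) hsum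
    (fun m => by
      rw [hαβ]
      exact hBK _ (mul_mem (pow_mem (hb2 m) N) (div_mem hα2 hβ2)) (hbN m))
    (fun m => by
      rw [hβα]
      exact hBK _ (mul_mem (pow_mem (hj2 m) N) (div_mem hβ2 hα2)) (hjN m))
  have hsub : ∀ z, z ∈ etSet k (xring k k1 x c) → z ∈ etField k (xring k k1 x c) := fun z hz =>
    subset_adjoin k _ hz
  have hxm : x ∈ xring k k1 x c := Algebra.subset_adjoin (Or.inl (Or.inr rfl))
  have hx' : x ∈ etSet k (xring k k1 x c) := by
    refine root_mem k (Polynomial.X - Polynomial.C (⟨x, hxm⟩ : xring k k1 x c))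
      (Polynomial.monic_X_sub_C _) (Polynomial.separable_X_sub_C) x ?_
    rw [map_sub, Polynomial.aeval_X, Polynomial.aeval_C]
    exact sub_self x
  have hE : SE.EK k k2 x y ≤ etField k (xring k k1 x c) := by
    unfold SE.EK
    rw [adjoin_le_iff]
    rintro z (⟨a, _, rfl⟩ | hz)
    · exact hsub _ (kbar_subset_etSet k _ a)
    · rcases hz with rfl | hz
      · exact hsub _ hx'
      · rw [Set.mem_singleton_iff] at hz
        subst hz
        exact hsub _ hy'
  have hθs : θ = ∑ m, j m * (b m * θ) := by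
    have h := congrArg (· * θ) hsum
    simp only [one_mul, Finset.sum_mul] at h
    exact h.symm.trans (Finset.sum_congr rfl fun m _ => mul_assoc _ _ _)
  rw [hθs]
  exact sum_mem fun m _ => mul_mem (hE (hj2 m)) (hsub _ (hbθ m))

end Pool.Agent.SB
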