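import Pool.Agent.Helper6.SE.EDefs

/-!
# SB-E-01 (ET1): base change
PROOF.  Given `S`, `φ : S →ₐ[R] Ω`: `R'` is an `R`-algebra by the inclusion (`(Subalgebra.inclusion h).toRingHom.toAlgebra`; make `IsScalarTower R R' Ω`).  Take `S' = R' ⊗[R] S` as `R'`-algebra: finite
(`Module.Finite.base_change`), étale (instance `Algebra.Etale.baseChange`), and `φ' = Algebra.TensorProduct.lift (Algebra.ofId R' Ω) φ _ : R' ⊗[R] S →ₐ[R'] Ω`, `φ' (1 ⊗ₜ s) = φ s`.
-/

set_option autoImplicit false

open MvPolynomial IntermediateField NumberField IsDedekindDomain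
open scoped TensorProduct

namespace Pool.Agent.SB

variable (k : Type) [Field k] {Ω : Type} [Field Ω] [Algebra k Ω]

/-- (ET1) `R ≤ R'`: base change of finite étale algebras -/
theorem etSet_mono {R R' : Subalgebra k Ω} (h : R ≤ R') : etSet k R ⊆ etSet k R' := by
  rintro θ ⟨S, hS1, hS2, hfin, het, φ, s, rfl⟩
  let _ : Algebra R R' := (Subalgebra.inclusion h).toRingHom.toAlgebra
  have htow : IsScalarTower R R' Ω := IsScalarTower.of_algebraMap_eq fun x => rfl
  let ψ : TensorProduct R R' S →ₐ[R'] Ω :=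
    Algebra.TensorProduct.lift (Algebra.ofId R' Ω) φ (fun _ _ => Commute.all _ _)
  refine ⟨TensorProduct R R' S, inferInstance, inferInstance, inferInstance, inferInstance, ψ,
    (1 : R') ⊗ₜ[R] s, ?_⟩
  change Algebra.TensorProduct.lift (Algebra.ofId R' Ω) φ (fun _ _ => Commute.all _ _) ((1 : R') ⊗ₜ[R] s) = φ s
  rw [Algebra.TensorProduct.lift_tmul, map_one, one_mul]

end Pool.Agent.SB
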