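import Pool.Agent.Helper6.SE.RootMem
import Pool.Agent.Helper6.SE.Mono
import Pool.Agent.Helper6.SE.Trans
import Pool.Agent.Helper6.SE.CovMul
import Pool.Agent.Helper6.SE.CoordMul
import Pool.Agent.Helper6.SE.ExNormal
import Pool.Agent.Helper6.SE.ExCover
import Pool.Agent.Helper6.SE.KMain

/-!
# PROJECT SB (MP_ad201b_nt), block ET: everything
ET1 `etSet_mono`, ET2 `etSet_trans`, `subset_etSet`, ET3 `kbar_subset_etSet`, ET3b `root_mem_etSet`, ET4 `exists_etCover`, ET5 `etCover_mul`,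
ET6a `coordRing_mul`, ET6b `exists_normal`, ET7 `etCover_normal`, ET8 `exists_xring`, ET9 `kummer_mem`.
-/
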