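import Pool.Agent.Helper79.SB.Common

set_option autoImplicit false

/-!
# PROJECT SB, block ET: definitions (verbatim from Helper79/SB/ET.lean)
-/

open MvPolynomial IntermediateField NumberField IsDedekindDomain

namespace Pool.Agent.SB

section proj

variable (k : Type) [Field k] {Ω : Type} [Field Ω] [Algebra k Ω] {n : ℕ} (ξ : Fin (n + 1) → Ω)

/-- admissible forms: homogeneous of positive degree, nonzero on `X` -/
structure Adm (e : ℕ) (g : MvPolynomial (Fin (n + 1)) k) : Prop where
  pos : 0 < e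
  hom : g.IsHomogeneous e
  ne : aeval ξ g ≠ 0

variable {ξ}

theorem Adm.mul {e e' : ℕ} {g g' : MvPolynomial (Fin (n + 1)) k} (h : Adm k ξ e g)
    (h' : Adm k ξ e' g') : Adm k ξ (e + e') (g * g') :=
  ⟨Nat.add_pos_left h.pos _, h.hom.mul h'.hom, by
    rw [map_mul]; exact mul_ne_zero h.ne h'.ne⟩

end proj

section curve

variable (k : Type) [Field k] {Ω : Type} [Field Ω] [Algebra k Ω]

/-- the field `W(x, y)`, `W = kbar` -/
def EW (x y : Ω) : IntermediateField k Ω :=
  adjoin k ({z | ∃ a : kbar k Ω, z = (a : Ω)} ∪ {x, y})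

/-- the ring `O_W`: elements of `W(x, y)` integral over `k[x]` -/
def OW (x y : Ω) : Subalgebra k Ω where
  carrier := {z | z ∈ EW k x y ∧ IsIntegral (Algebra.adjoin k ({x} : Set Ω)) z}
  mul_mem' := fun ha hb => ⟨mul_mem ha.1 hb.1, ha.2.mul hb.2⟩
  add_mem' := fun ha hb => ⟨add_mem ha.1 hb.1, ha.2.add hb.2⟩
  algebraMap_mem' := fun r => ⟨(EW k x y).algebraMap_mem r, by
    have h : algebraMap k Ω r = algebraMap (Algebra.adjoin k ({x} : Set Ω)) Ω
      (algebraMap k (Algebra.adjoin k ({x} : Set Ω)) r) := rfl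
    rw [h]
    exact isIntegral_algebraMap⟩

end curve

end Pool.Agent.SB
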