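import Pool.Agent.Helper6.SE.KDefs

/-!
# SB-E-18: `k1[x, 1/(x - c 0), 1/(x - c 1), 1/(x - c 2)]` is a Dedekind domain
PROOF.  `x` is transcendental over `k1` (algebraic over `k`).  The ring homomorphism `Polynomial k1 → Ω`, `X ↦ x` is injective, with image in `xring k k1 x c`; with `d = ∏ (X - c i)` (`c i ∈ k1`) every element of `xring` times a power of `d(x)` is in the image (`Algebra.adjoin_induction`: the set of such elements is a subalgebra;
`(x - c i)⁻¹ d(x) = ∏_{i' ≠ i} (x - c i')`) and `d(x)` is a unit of `xring`.  So `xring` is the localisation of the principal ideal domain `Polynomial k1` away from `d`: `IsLocalization.isDedekindDomain`.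
-/

set_option autoImplicit false

open MvPolynomial IntermediateField NumberField IsDedekindDomain

namespace Pool.Agent.SB.SE

variable (k : Type) [Field k] {Ω : Type} [Field Ω] [Algebra k Ω]

/-- the embedding of `k1` in `Ω` -/
private def emb (k1 : IntermediateField k (kbar k Ω)) : k1 →+* Ω :=
  (algebraMap (kbar k Ω) Ω).comp (algebraMap k1 (kbar k Ω))

private theorem emb_apply (k1 : IntermediateField k (kbar k Ω)) (a : k1) :
    emb k k1 a = ((a : kbar k Ω) : Ω) := rfl

private theorem ev_inj (k1 : IntermediateField k (kbar k Ω)) (x : Ω) (hx : Transcendental k x)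
    (p : Polynomial k1) (hp : Polynomial.eval₂ (emb k k1) x p = 0) : p = 0 := by
  by_contra hne
  apply hx
  have h1 : IsAlgebraic (kbar k Ω) x := by
    refine ⟨p.map (algebraMap k1 (kbar k Ω)), ?_, ?_⟩
    · exact (Polynomial.map_ne_zero_iff (algebraMap k1 (kbar k Ω)).injective).2 hne
    · rw [Polynomial.aeval_def, Polynomial.eval₂_map]
      exact hp
  exact h1.restrictScalars k

theorem xring_dedekind (k1 : IntermediateField k (kbar k Ω)) (c : Fin 3 → kbar k Ω)
    (hc : ∀ i, c i ∈ k1) (x : Ω) (hx : Transcendental k x) :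
    IsDedekindDomain (xring k k1 x c) := by
  classical
  set φ : Polynomial k1 →+* Ω := Polynomial.eval₂RingHom (emb k k1) x with hφ
  have hφC : ∀ a : k1, φ (Polynomial.C a) = ((a : kbar k Ω) : Ω) := by
    intro a
    rw [hφ, Polynomial.coe_eval₂RingHom, Polynomial.eval₂_C]; rfl
  have hφX : φ Polynomial.X = x := by
    rw [hφ, Polynomial.coe_eval₂RingHom, Polynomial.eval₂_X]
  have hinj : Function.Injective φ := by
    rw [injective_iff_map_eq_zero]
    intro p hp
    exact ev_inj k k1 x hx p hp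
  have hxmem : x ∈ xring k k1 x c := Algebra.subset_adjoin (Or.inl (Or.inr rfl))
  have hk1mem : ∀ a : k1, ((a : kbar k Ω) : Ω) ∈ xring k k1 x c := fun a =>
    Algebra.subset_adjoin (Or.inl (Or.inl ⟨a, a.2, rfl⟩))
  have hinvmem : ∀ i, (x - (c i : Ω))⁻¹ ∈ xring k k1 x c := fun i =>
    Algebra.subset_adjoin (Or.inr ⟨i, rfl⟩)
  have hmem : ∀ p, φ p ∈ xring k k1 x c := by
    intro p
    induction p using Polynomial.induction_on' with
    | add p q hp hq => rw [map_add]; exact add_mem hp hq
    | monomial n a =>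
      rw [← Polynomial.C_mul_X_pow_eq_monomial, map_mul, map_pow, hφC, hφX]
      exact mul_mem (hk1mem a) (pow_mem hxmem n)
  set f : Fin 3 → Polynomial k1 := fun i => Polynomial.X - Polynomial.C ⟨c i, hc i⟩ with hf
  have hφf : ∀ i, φ (f i) = x - (c i : Ω) := by
    intro i
    rw [hf]
    simp only
    rw [map_sub, hφC, hφX]
  have hfne : ∀ i, f i ≠ 0 := fun i => Polynomial.X_sub_C_ne_zero _
  have hfne' : ∀ i, x - (c i : Ω) ≠ 0 := by
    intro i h
    rw [← hφf i] at h
    exact hfne i ((injective_iff_map_eq_zero φ).1 hinj _ h)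
  set d : Polynomial k1 := ∏ i, f i with hd
  have hdne : d ≠ 0 := Finset.prod_ne_zero_iff.2 fun i _ => hfne i
  have hφd : φ d = ∏ i, (x - (c i : Ω)) := by
    rw [hd, map_prod]
    exact Finset.prod_congr rfl fun i _ => hφf i
  -- every element times a power of `d`
  have hsurj : ∀ z ∈ xring k k1 x c, ∃ (n : ℕ) (p : Polynomial k1), z * φ d ^ n = φ p := by
    intro z hz
    induction hz using Algebra.adjoin_induction with
    | mem z hz =>
      rcases hz with (⟨a, ha, rfl⟩ | hz) | ⟨i, rfl⟩
      · exact ⟨0, Polynomial.C ⟨a, ha⟩, by rw [pow_zero, mul_one, hφC]⟩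
      · rw [Set.mem_singleton_iff] at hz
        exact ⟨0, Polynomial.X, by rw [pow_zero, mul_one, hφX, hz]⟩
      · refine ⟨1, ∏ j ∈ Finset.univ.erase i, f j, ?_⟩
        rw [pow_one, hφd, map_prod, ← Finset.mul_prod_erase Finset.univ _ (Finset.mem_univ i),
          ← mul_assoc, inv_mul_cancel₀ (hfne' i), one_mul]
        exact Finset.prod_congr rfl fun j _ => (hφf j).symm
    | algebraMap r =>
      refine ⟨0, Polynomial.C (algebraMap k k1 r), ?_⟩
      rw [pow_zero, mul_one, hφC]
      rfl
    | add z w _ _ hz hw =>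
      obtain ⟨n, p, hp⟩ := hz
      obtain ⟨m, q, hq⟩ := hw
      refine ⟨n + m, p * d ^ m + q * d ^ n, ?_⟩
      rw [map_add, map_mul, map_mul, map_pow, map_pow, ← hp, ← hq]
      ring
    | mul z w _ _ hz hw =>
      obtain ⟨n, p, hp⟩ := hz
      obtain ⟨m, q, hq⟩ := hw
      refine ⟨n + m, p * q, ?_⟩
      rw [map_mul, ← hp, ← hq]
      ring
  set ψ : Polynomial k1 →+* xring k k1 x c := φ.codRestrict (xring k k1 x c) hmem with hψ
  have hψφ : ∀ p, ((ψ p : xring k k1 x c) : Ω) = φ p := fun p => rfl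
  letI : Algebra (Polynomial k1) (xring k k1 x c) := ψ.toAlgebra
  have halg : ∀ p, algebraMap (Polynomial k1) (xring k k1 x c) p = ψ p := fun p => rfl
  haveI : IsLocalization (Submonoid.powers d) (xring k k1 x c) := by
    refine ⟨?_, ?_, ?_⟩
    · rintro ⟨_, n, rfl⟩
      rw [halg, map_pow]
      apply IsUnit.pow
      refine IsUnit.of_mul_eq_one (⟨∏ i, (x - (c i : Ω))⁻¹, prod_mem fun i _ => hinvmem i⟩ :
        xring k k1 x c) ?_
      apply Subtype.ext
      show φ d * ∏ i, (x - (c i : Ω))⁻¹ = 1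
      rw [hφd, ← Finset.prod_mul_distrib]
      exact Finset.prod_eq_one fun i _ => mul_inv_cancel₀ (hfne' i)
    · rintro ⟨z, hz⟩
      obtain ⟨n, p, hp⟩ := hsurj z hz
      refine ⟨(p, ⟨d ^ n, n, rfl⟩), ?_⟩
      apply Subtype.ext
      show z * φ (d ^ n) = φ p
      rw [map_pow, hp]
    · intro p q hpq
      refine ⟨1, ?_⟩
      rw [halg, halg] at hpq
      have h := congrArg (fun t : xring k k1 x c => (t : Ω)) hpq
      have h2 : p = q := hinj h
      rw [h2]
  exact IsLocalization.isDedekindDomain (Polynomial k1) (M := Submonoid.powers d)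
    (powers_le_nonZeroDivisors_of_noZeroDivisors hdne) (xring k k1 x c)

end Pool.Agent.SB.SE
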