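import Pool.Agent.Helper6.SE.EDefs

/-!
# PROJECT SB, block ET, ET9: definitions
-/

set_option autoImplicit false

open MvPolynomial IntermediateField NumberField IsDedekindDomain

namespace Pool.Agent.SB.SE

variable (k : Type) [Field k] {Ω : Type} [Field Ω] [Algebra k Ω]

/-- the field `k2(x, y)` -/
def EK (k2 : IntermediateField k (kbar k Ω)) (x y : Ω) : IntermediateField k Ω :=
  adjoin k ({z | ∃ a ∈ k2, z = (a : Ω)} ∪ {x, y})

/-- the ring `k2[x, 1/(x - c 0), 1/(x - c 1), 1/(x - c 2), y]` -/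
def BK (k2 : IntermediateField k (kbar k Ω)) (x y : Ω) (c : Fin 3 → kbar k Ω) :
    Subalgebra k Ω :=
  Algebra.adjoin k ((xring k k2 x c : Set Ω) ∪ {y})

end Pool.Agent.SB.SE
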