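import Pool.Agent.Helper6.SE.EDefs

/-!
# SB-E-05: forms of degree `e m` divided by `g^m`
PROOF.  A form of degree `e m` is a linear combination of monomials `x^s` with `∑ s_i = e m` (`MvPolynomial.IsHomogeneous`, `f = ∑ monomial`).  For a monomial by induction on `m`: if `∑ s_i = e (m+1)` there is `t ≤ s` with `∑ t_i = e`
(a Finsupp / multiset of size `≥ e` contains one of size `e`; e.g. `Multiset.exists_le_card_eq` or `Finsupp` induction), then `x^s / g^(m+1) = (x^t / g) (x^(s-t) / g^m)`; the first factor is a generator.  `m = 0`: `f` is a constant.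
-/

set_option autoImplicit false

open MvPolynomial IntermediateField NumberField IsDedekindDomain

namespace Pool.Agent.SB.SE

variable (k : Type) [Field k] {Ω : Type} [Field Ω] [Algebra k Ω] {n : ℕ} (ξ : Fin (n + 1) → Ω)

private theorem exists_le_degree (N : ℕ) (s : Fin N →₀ ℕ) (d : ℕ) (h : d ≤ s.degree) :
    ∃ t : Fin N →₀ ℕ, t ≤ s ∧ t.degree = d := by
  induction d with
  | zero => exact ⟨0, bot_le, by simp⟩
  | succ d ih =>
    obtain ⟨t, hts, ht⟩ := ih (by omega)
    have hne : t ≠ s := by
      rintro rfl
      omega
    have hex : ∃ i, t i < s i := by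
      by_contra hcon
      push Not at hcon
      exact hne (le_antisymm hts hcon)
    obtain ⟨i, hi⟩ := hex
    refine ⟨t + Finsupp.single i 1, ?_, ?_⟩
    · intro j
      by_cases hj : i = j
      · subst hj
        simp only [Finsupp.add_apply, Finsupp.single_eq_same]
        omega
      · simp only [Finsupp.add_apply, Finsupp.single_apply, if_neg hj, add_zero]
        exact hts j
    · rw [map_add, Finsupp.degree_single, ht]

private theorem mono_mem (e m : ℕ) (g : MvPolynomial (Fin (n + 1)) k) (s : Fin (n + 1) →₀ ℕ)
    (hs : s.degree = e * m) :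
    aeval ξ (monomial s (1 : k)) / aeval ξ g ^ m ∈ coordRing k ξ e g := by
  induction m generalizing s with
  | zero =>
    have h0 : s = 0 := by
      have : s.degree = 0 := by rw [hs, mul_zero]
      exact (Finsupp.degree_eq_zero_iff s).mp this
    subst h0
    simp only [pow_zero, div_one, monomial_zero', map_one]
    exact one_mem _
  | succ m ih =>
    obtain ⟨t, hts, ht⟩ := exists_le_degree (n + 1) s e (by rw [hs]; nlinarith)
    have hsplit : s = t + (s - t) := (add_tsub_cancel_of_le hts).symm
    have hdeg : (s - t).degree = e * m := by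
      have h1 : s.degree = t.degree + (s - t).degree := by
        conv_lhs => rw [hsplit]
        rw [map_add]
      have h2 : e * (m + 1) = e * m + e := by ring
      omega
    have hm : monomial s (1 : k) = monomial t (1 : k) * monomial (s - t) (1 : k) := by
      rw [monomial_mul, one_mul, ← hsplit]
    have he : aeval ξ (monomial s (1 : k)) / aeval ξ g ^ (m + 1)
        = (aeval ξ (monomial t (1 : k)) / aeval ξ g)
          * (aeval ξ (monomial (s - t) (1 : k)) / aeval ξ g ^ m) := by
      rw [hm, map_mul, pow_succ', div_mul_div_comm]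
    rw [he]
    refine mul_mem ?_ (ih (s - t) hdeg)
    refine Algebra.subset_adjoin ⟨monomial t (1 : k), ?_, rfl⟩
    exact isHomogeneous_monomial _ ht

theorem pow_mem (e m : ℕ) (g f : MvPolynomial (Fin (n + 1)) k) (hf : f.IsHomogeneous (e * m)) :
    aeval ξ f / aeval ξ g ^ m ∈ coordRing k ξ e g := by
  have h1 : aeval ξ f / aeval ξ g ^ m
      = ∑ s ∈ f.support, f.coeff s • (aeval ξ (monomial s (1 : k)) / aeval ξ g ^ m) := by
    conv_lhs => rw [f.as_sum]
    rw [map_sum, Finset.sum_div]
    refine Finset.sum_congr rfl fun s _ => ?_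
    have h2 : monomial s (f.coeff s) = f.coeff s • monomial s (1 : k) := by
      rw [smul_monomial, smul_eq_mul, mul_one]
    rw [h2, map_smul, smul_div_assoc]
  rw [h1]
  refine Subalgebra.sum_mem _ fun s hs => Subalgebra.smul_mem _ (mono_mem k ξ e m g s ?_) _
  have h3 := hf (mem_support_iff.mp hs)
  rw [← h3, Finsupp.degree_eq_weight_one]
  rfl

end Pool.Agent.SB.SE
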